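import Pool.Agent.SCP.Sys

set_option autoImplicit false
set_option linter.unusedSectionVars false

/-!
# Removal of the vertices of `C`
-/

open Polynomial

namespace Pool.Agent.SCP

open Pool.Agent.BCF

variable {V : Type} [Fintype V] [DecidableEq V]

/-- The neighbours of `w` in `W`. -/
def nb (G : SimpleGraph V) [DecidableRel G.Adj] (W : Finset V) (w : V) : Finset V :=
  W.filter fun a => G.Adj w a

/-- The abstract properties of the quotients and their derivatives. -/
structure FDS (G : SimpleGraph V) [DecidableRel G.Adj] (F D : Finset V → Finset V → ℝ) :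
    Prop where
  F_empty : ∀ W, F W ∅ = 1
  D_empty : ∀ W, D W ∅ = 0
  F_single : ∀ W v, F W {v} = 1
  D_single : ∀ W v, D W {v} = 0
  F_edge : ∀ W T a b, T ⊆ W → a ∈ T → b ∈ T → G.Adj a b → F W T = 0
  D_edge : ∀ W T a b, T ⊆ W → a ∈ T → b ∈ T → G.Adj a b → D W T = 0
  F_step : ∀ W w T, w ∈ W → T ⊆ W → w ∉ T → T.Nonempty → (∀ a ∈ T, ¬ G.Adj w a) →
    F W (insert w T) * (∑ S ∈ (nb G W w).powerset, F (W.erase w) S) =
      ∑ S ∈ (nb G W w).powerset, F (W.erase w) (T ∪ S)
  D_step : ∀ W w T, w ∈ W → T ⊆ W → w ∉ T → T.Nonempty → (∀ a ∈ T, ¬ G.Adj w a) →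
    D W (insert w T) * (∑ S ∈ (nb G W w).powerset, F (W.erase w) S) +
      F W (insert w T) * (1 + ∑ S ∈ (nb G W w).powerset, D (W.erase w) S) =
      ∑ S ∈ (nb G W w).powerset, D (W.erase w) (T ∪ S)

/-- The edges inside `W`. -/
def EW (G : SimpleGraph V) [DecidableRel G.Adj] (W : Finset V) : Finset (Sym2 V) :=
  G.edgeFinset ∩ W.sym2

theorem mem_EW {G : SimpleGraph V} [DecidableRel G.Adj] {W : Finset V} {a b : V} :
    s(a, b) ∈ EW G W ↔ G.Adj a b ∧ a ∈ W ∧ b ∈ W := by
  unfold EW
  rw [Finset.mem_inter, SimpleGraph.mem_edgeFinset, SimpleGraph.mem_edgeSet,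
    Finset.mk_mem_sym2_iff]

theorem EW_loop {G : SimpleGraph V} [DecidableRel G.Adj] {W : Finset V} :
    ∀ s ∈ EW G W, ¬ s.IsDiag := by
  intro s hs
  unfold EW at hs
  rw [Finset.mem_inter, SimpleGraph.mem_edgeFinset] at hs
  exact G.not_isDiag_of_mem_edgeSet hs.1

theorem EW_split {G : SimpleGraph V} [DecidableRel G.Adj] {W : Finset V} {w : V}
    (hw : w ∈ W) : EW G W = EW G (W.erase w) ∪ star w (nb G W w) := by
  ext s
  induction s using Sym2.ind with
  | _ a b =>
    rw [Finset.mem_union, mem_EW, mem_EW]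
    unfold star nb
    simp only [Finset.mem_image, Finset.mem_filter, Finset.mem_erase]
    constructor
    · rintro ⟨h1, h2, h3⟩
      by_cases ha : a = w
      · subst ha
        right
        exact ⟨b, ⟨h3, h1⟩, rfl⟩
      · by_cases hb : b = w
        · subst hb
          right
          exact ⟨a, ⟨h2, h1.symm⟩, Sym2.eq_swap⟩
        · left
          exact ⟨h1, ⟨ha, h2⟩, hb, h3⟩
    · rintro (⟨h1, h2, h3⟩ | ⟨c, ⟨h1, h2⟩, h3⟩)
      · exact ⟨h1, h2.2, h3.2⟩
      · rcases Sym2.eq_iff.mp h3 with ⟨h4, h5⟩ | ⟨h4, h5⟩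
        · subst h4; subst h5
          exact ⟨h2, hw, h1⟩
        · subst h4; subst h5
          exact ⟨h2.symm, h1, hw⟩

theorem notMem_EW_erase {G : SimpleGraph V} [DecidableRel G.Adj] {W : Finset V} {w : V} :
    ∀ s ∈ EW G (W.erase w), w ∉ s := by
  intro s hs
  induction s using Sym2.ind with
  | _ a b =>
    rw [mem_EW] at hs
    rw [Sym2.mem_iff]
    rintro (h | h)
    · exact (Finset.mem_erase.mp hs.2.1).1 h.symm
    · exact (Finset.mem_erase.mp hs.2.2).1 h.symm

theorem notMem_nb {G : SimpleGraph V} [DecidableRel G.Adj] {W : Finset V} {w : V} :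
    w ∉ nb G W w := by
  unfold nb
  rw [Finset.mem_filter]
  rintro ⟨_, h⟩
  exact h.ne rfl

theorem fds (G : SimpleGraph V) [DecidableRel G.Adj] :
    FDS G (fun W T => FF (EW G W) T) (fun W T => DD (EW G W) T) where
  F_empty := fun W => FF_empty EW_loop
  D_empty := fun W => DD_empty EW_loop
  F_single := fun W v => FF_single EW_loop v
  D_single := fun W v => DD_single EW_loop v
  F_edge := fun W T a b hT ha hb hab => FF_edge ha hb (mem_EW.mpr ⟨hab, hT ha, hT hb⟩)
  D_edge := fun W T a b hT ha hb hab => DD_edge ha hb (mem_EW.mpr ⟨hab, hT ha, hT hb⟩)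
  F_step := by
    intro W w T hw hTW hwT hT hadj
    have hd : Disjoint T (nb G W w) := by
      rw [Finset.disjoint_left]
      intro a ha ha'
      exact hadj a ha (Finset.mem_filter.mp ha').2
    have h := FF_step (E := EW G (W.erase w)) (w := w) (N := nb G W w) (T := T) EW_loop
      (by rw [← EW_split hw]; exact EW_loop) notMem_EW_erase notMem_nb hT hwT hd
    rw [← EW_split hw] at h
    exact h
  D_step := by
    intro W w T hw hTW hwT hT hadj
    have hd : Disjoint T (nb G W w) := by
      rw [Finset.disjoint_left]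
      intro a ha ha'
      exact hadj a ha (Finset.mem_filter.mp ha').2
    have h := DD_step (E := EW G (W.erase w)) (w := w) (N := nb G W w) (T := T) EW_loop
      (by rw [← EW_split hw]; exact EW_loop) notMem_EW_erase notMem_nb hT hwT hd
    rw [← EW_split hw] at h
    exact h

section

variable {G : SimpleGraph V} [DecidableRel G.Adj] {F D : Finset V → Finset V → ℝ}

theorem FDS.F_nonneg (h : FDS G F D) : ∀ W T, T ⊆ W → 0 ≤ F W T := by
  have key : ∀ n : ℕ, ∀ W : Finset V, W.card = n → ∀ T, T ⊆ W → 0 ≤ F W T := by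
    intro n
    induction n with
    | zero =>
      intro W hW T hT
      have h1 : W = ∅ := Finset.card_eq_zero.mp hW
      subst h1
      rw [Finset.subset_empty.mp hT, h.F_empty]
      exact zero_le_one
    | succ n ih =>
      intro W hW T hT
      rcases T.eq_empty_or_nonempty with rfl | ⟨w, hw⟩
      · rw [h.F_empty]; exact zero_le_one
      rcases (T.erase w).eq_empty_or_nonempty with he | hne
      · have : T = {w} := by
          rw [← Finset.insert_erase hw, he]
          rfl
        rw [this, h.F_single]; exact zero_le_one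
      by_cases hadj : ∃ a ∈ T.erase w, G.Adj w a
      · obtain ⟨a, ha, hwa⟩ := hadj
        rw [h.F_edge W T w a hT hw (Finset.mem_of_mem_erase ha) hwa]
      · push Not at hadj
        have hstep := h.F_step W w (T.erase w) (hT hw)
          ((Finset.erase_subset _ _).trans hT) (Finset.notMem_erase _ _) hne hadj
        rw [Finset.insert_erase hw] at hstep
        have hcard : (W.erase w).card = n := by
          rw [Finset.card_erase_of_mem (hT hw), hW]; rfl
        have hsub : ∀ S ∈ (nb G W w).powerset, S ⊆ W.erase w := by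
          intro S hS
          rw [Finset.mem_powerset] at hS
          intro a ha
          have := Finset.mem_filter.mp (hS ha)
          exact Finset.mem_erase.mpr ⟨this.2.ne', this.1⟩
        have h1 : 1 ≤ ∑ S ∈ (nb G W w).powerset, F (W.erase w) S := by
          calc (1 : ℝ) = F (W.erase w) ∅ := (h.F_empty _).symm
            _ ≤ _ := Finset.single_le_sum (f := fun S => F (W.erase w) S)
              (fun S hS => ih _ hcard S (hsub S hS)) (Finset.empty_mem_powerset _)
        have h2 : 0 ≤ ∑ S ∈ (nb G W w).powerset, F (W.erase w) (T.erase w ∪ S) := by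
          refine Finset.sum_nonneg fun S hS => ih _ hcard _ ?_
          refine Finset.union_subset ?_ (hsub S hS)
          exact Finset.erase_subset_erase _ hT
        rw [← hstep] at h2
        by_contra hcon
        push Not at hcon
        have := mul_neg_of_neg_of_pos hcon (lt_of_lt_of_le one_pos h1)
        linarith
  intro W T hT
  exact key _ W rfl T hT

end

/-- Independent sets. -/
def Ind (G : SimpleGraph V) (T : Finset V) : Prop := ∀ a ∈ T, ∀ b ∈ T, ¬ G.Adj a b

/-- The weight of the independent sets in `N`. -/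
noncomputable def wt (G : SimpleGraph V) [DecidableRel G.Adj] (y : ℝ) (N : Finset V) : ℝ :=
  ∑ S ∈ N.powerset.filter (fun S => 2 ≤ S.card ∧ ∀ a ∈ S, ∀ b ∈ S, ¬ G.Adj a b),
    ((S.card : ℝ) - 1) / y ^ S.card

theorem wt_mono {G : SimpleGraph V} [DecidableRel G.Adj] {y : ℝ} (hy : 0 < y)
    {M N : Finset V} (h : M ⊆ N) : wt G y M ≤ wt G y N := by
  unfold wt
  refine Finset.sum_le_sum_of_subset_of_nonneg ?_ ?_
  · intro S hS
    rw [Finset.mem_filter, Finset.mem_powerset] at hS ⊢
    exact ⟨hS.1.trans h, hS.2⟩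
  · intro S hS _
    rw [Finset.mem_filter] at hS
    have : (2 : ℝ) ≤ S.card := by exact_mod_cast hS.2.1
    have h2 : (0 : ℝ) ≤ (S.card : ℝ) - 1 := by linarith
    positivity

/-- The configuration: `C` is attached at the clique `K`, and `U` consists of vertices which are
adjacent to all vertices of `C`. -/
structure Cfg (G : SimpleGraph V) [DecidableRel G.Adj] (C K U : Finset V) : Prop where
  nbr : ∀ c ∈ C, ∀ v, G.Adj c v → v ∈ C ∨ v ∈ K
  clq : ∀ a ∈ K, ∀ b ∈ K, a ≠ b → G.Adj a b
  UK : U ⊆ K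
  CU : ∀ c ∈ C, ∀ k ∈ U, G.Adj c k
  CK : ∀ c ∈ C, c ∉ K
  cond : ∀ c ∈ C, ∀ u, G.Adj c u → u ∉ U →
    wt G ((U.card : ℝ) + 1) (((nb G Finset.univ c) \ U).erase u) ≤ 1

/-- The admissible sets of merged vertices after the removal of the complement of `W`. -/
structure St (G : SimpleGraph V) (C K U : Finset V) (W T : Finset V) : Prop where
  sub : T ⊆ W
  CK : ∀ t ∈ T, t ∈ C ∨ t ∈ K
  U : ∀ t ∈ T, t ∉ U
  lost : ∀ t ∈ T, t ∈ C → ∃ u, u ∉ W ∧ G.Adj t u

section

variable {G : SimpleGraph V} [DecidableRel G.Adj] {C K U : Finset V}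

theorem St.mono {W T T' : Finset V} (h : St G C K U W T) (hs : T' ⊆ T) : St G C K U W T' :=
  ⟨hs.trans h.sub, fun t ht => h.CK t (hs ht), fun t ht => h.U t (hs ht),
    fun t ht => h.lost t (hs ht)⟩

theorem St.union {W T T' : Finset V} (h : St G C K U W T) (h' : St G C K U W T') :
    St G C K U W (T ∪ T') := by
  refine ⟨Finset.union_subset h.sub h'.sub, ?_, ?_, ?_⟩ <;> intro t ht <;>
    rcases Finset.mem_union.mp ht with ht | ht
  · exact h.CK t ht
  · exact h'.CK t ht
  · exact h.U t ht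
  · exact h'.U t ht
  · exact h.lost t ht
  · exact h'.lost t ht

theorem St.erase {W T : Finset V} (h : St G C K U W T) {w : V} (hw : w ∉ T) :
    St G C K U (W.erase w) T := by
  refine ⟨?_, h.CK, h.U, ?_⟩
  · intro t ht
    rw [Finset.mem_erase]
    exact ⟨fun e => hw (e ▸ ht), h.sub ht⟩
  · intro t ht htC
    obtain ⟨u, hu, hu2⟩ := h.lost t ht htC
    exact ⟨u, fun h => hu (Finset.mem_of_mem_erase h), hu2⟩

theorem St.star {W : Finset V} (cf : Cfg G C K U) {w : V} (hw : w ∈ C) {S : Finset V}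
    (hS : S ⊆ nb G W w \ U) : St G C K U (W.erase w) S := by
  have h : ∀ a ∈ S, a ∈ W ∧ G.Adj w a ∧ a ∉ U := by
    intro a ha
    have := hS ha
    rw [Finset.mem_sdiff] at this
    unfold nb at this
    rw [Finset.mem_filter] at this
    exact ⟨this.1.1, this.1.2, this.2⟩
  refine ⟨?_, ?_, ?_, ?_⟩
  · intro a ha
    rw [Finset.mem_erase]
    exact ⟨(h a ha).2.1.ne', (h a ha).1⟩
  · intro a ha
    exact cf.nbr w hw a (h a ha).2.1
  · intro a ha
    exact (h a ha).2.2
  · intro a ha _
    exact ⟨w, Finset.notMem_erase _ _, (h a ha).2.1.symm⟩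

/-- Splitting off the universal vertices. -/
theorem sum_split (g : Finset V → ℝ) (M : Finset V) : ∀ L : Finset V, Disjoint L M →
    (∀ k ∈ L, ∀ S ⊆ L ∪ M, k ∉ S → S.Nonempty → g (insert k S) = 0) →
    ∑ S ∈ (L ∪ M).powerset, g S = ∑ S ∈ M.powerset, g S + ∑ k ∈ L, g {k} := by
  intro L
  induction L using Finset.induction_on with
  | empty => intro _ _; simp
  | insert k L hk ih =>
    intro hd hg
    rw [Finset.disjoint_insert_left] at hd
    have hk2 : k ∉ L ∪ M := by
      rw [Finset.mem_union]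
      rintro (h | h)
      · exact hk h
      · exact hd.1 h
    rw [Finset.insert_union, Finset.sum_powerset_insert hk2, Finset.sum_insert hk,
      ih hd.2 (fun j hj S hS hjS hne => hg j (Finset.mem_insert_of_mem hj) S
        (hS.trans (by rw [Finset.insert_union]; exact Finset.subset_insert _ _)) hjS hne)]
    have h1 : ∑ S ∈ (L ∪ M).powerset, g (insert k S) = g {k} := by
      rw [Finset.sum_eq_single ∅]
      · rfl
      · intro S hS hne
        rw [Finset.mem_powerset] at hS
        refine hg k (Finset.mem_insert_self _ _) S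
          (hS.trans (by rw [Finset.insert_union]; exact Finset.subset_insert _ _)) ?_
          (Finset.nonempty_iff_ne_empty.mpr hne)
        exact fun h => hk2 (hS h)
      · intro h
        exact absurd (Finset.empty_mem_powerset _) h
    rw [h1]
    ring

variable {F D : Finset V → Finset V → ℝ}

theorem U_sub_nb {W : Finset V} (cf : Cfg G C K U) (hW : ∀ v, v ∉ W → v ∈ C) {w : V}
    (hw : w ∈ C) : U ⊆ nb G W w := by
  intro k hk
  unfold nb
  rw [Finset.mem_filter]
  refine ⟨?_, cf.CU w hw k hk⟩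
  by_contra h
  exact cf.CK k (hW k h) (cf.UK hk)

theorem adj_U {W : Finset V} (cf : Cfg G C K U) {T : Finset V} (hT : St G C K U W T)
    {k t : V} (hk : k ∈ U) (ht : t ∈ T) : G.Adj t k := by
  rcases hT.CK t ht with h | h
  · exact cf.CU t h k hk
  · refine cf.clq t h k (cf.UK hk) ?_
    rintro rfl
    exact hT.U t ht hk

theorem nb_sub {W : Finset V} {w : V} : nb G W w ⊆ W.erase w := by
  intro a ha
  unfold nb at ha
  rw [Finset.mem_filter] at ha
  exact Finset.mem_erase.mpr ⟨ha.2.ne', ha.1⟩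

/-- In the set `nb G W w`, every vertex of `U` is adjacent to all the others. -/
theorem adj_nb {W : Finset V} (cf : Cfg G C K U) {w : V} (hw : w ∈ C) {k a : V} (hk : k ∈ U)
    (ha : a ∈ nb G W w) (hne : k ≠ a) : G.Adj k a := by
  unfold nb at ha
  rw [Finset.mem_filter] at ha
  rcases cf.nbr w hw a ha.2 with h | h
  · exact (cf.CU a h k hk).symm
  · exact cf.clq k (cf.UK hk) a h hne

/-- The reduction of the sums, for a set of neighbours which contains `U`. -/
theorem red_FN (fd : FDS G F D) (cf : Cfg G C K U) {W N : Finset V} {w : V} (hw : w ∈ C)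
    (hU : U ⊆ N) (hN : N ⊆ nb G W w) :
    ∑ S ∈ N.powerset, F (W.erase w) S =
      (U.card : ℝ) + ∑ S ∈ (N \ U).powerset, F (W.erase w) S := by
  have e : N = U ∪ (N \ U) := by
    rw [Finset.union_sdiff_of_subset hU]
  conv_lhs => rw [e]
  rw [sum_split _ _ U Finset.disjoint_sdiff]
  · rw [Finset.sum_congr rfl fun k _ => fd.F_single _ k]
    simp only [Finset.sum_const, nsmul_eq_mul, mul_one]
    ring
  · intro k hk S hS hkS hne
    rw [← e] at hS
    obtain ⟨a, ha⟩ := hne
    refine fd.F_edge _ _ k a ?_ (Finset.mem_insert_self _ _) (Finset.mem_insert_of_mem ha) ?_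
    · rw [Finset.insert_subset_iff]
      exact ⟨nb_sub (hN (hU hk)), (hS.trans hN).trans nb_sub⟩
    · exact adj_nb cf hw hk (hN (hS ha)) fun h => hkS (h ▸ ha)

theorem red_DN (fd : FDS G F D) (cf : Cfg G C K U) {W N : Finset V} {w : V} (hw : w ∈ C)
    (hU : U ⊆ N) (hN : N ⊆ nb G W w) :
    ∑ S ∈ N.powerset, D (W.erase w) S =
      ∑ S ∈ (N \ U).powerset, D (W.erase w) S := by
  have e : N = U ∪ (N \ U) := by
    rw [Finset.union_sdiff_of_subset hU]
  conv_lhs => rw [e]
  rw [sum_split _ _ U Finset.disjoint_sdiff]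
  · rw [Finset.sum_congr rfl fun k _ => fd.D_single _ k]
    simp only [Finset.sum_const_zero, add_zero]
  · intro k hk S hS hkS hne
    rw [← e] at hS
    obtain ⟨a, ha⟩ := hne
    refine fd.D_edge _ _ k a ?_ (Finset.mem_insert_self _ _) (Finset.mem_insert_of_mem ha) ?_
    · rw [Finset.insert_subset_iff]
      exact ⟨nb_sub (hN (hU hk)), (hS.trans hN).trans nb_sub⟩
    · exact adj_nb cf hw hk (hN (hS ha)) fun h => hkS (h ▸ ha)

theorem red_FTN (fd : FDS G F D) (cf : Cfg G C K U) {W N : Finset V}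
    {w : V} {T : Finset V} (hT : St G C K U (W.erase w) T) (hne : T.Nonempty)
    (hN : N ⊆ nb G W w) :
    ∑ S ∈ N.powerset, F (W.erase w) (T ∪ S) =
      ∑ S ∈ (N \ U).powerset, F (W.erase w) (T ∪ S) := by
  symm
  apply Finset.sum_subset
  · exact Finset.powerset_mono.mpr Finset.sdiff_subset
  · intro S hS hS2
    rw [Finset.mem_powerset] at hS hS2
    have : ∃ k ∈ S, k ∈ U := by
      by_contra hcon
      push Not at hcon
      exact hS2 fun a ha => Finset.mem_sdiff.mpr ⟨hS ha, hcon a ha⟩
    obtain ⟨k, hkS, hkU⟩ := this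
    obtain ⟨t, ht⟩ := hne
    exact fd.F_edge _ _ t k (Finset.union_subset hT.sub ((hS.trans hN).trans nb_sub))
      (Finset.mem_union_left _ ht) (Finset.mem_union_right _ hkS) (adj_U cf hT hkU ht)

theorem red_DTN (fd : FDS G F D) (cf : Cfg G C K U) {W N : Finset V}
    {w : V} {T : Finset V} (hT : St G C K U (W.erase w) T) (hne : T.Nonempty)
    (hN : N ⊆ nb G W w) :
    ∑ S ∈ N.powerset, D (W.erase w) (T ∪ S) =
      ∑ S ∈ (N \ U).powerset, D (W.erase w) (T ∪ S) := by
  symm
  apply Finset.sum_subset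
  · exact Finset.powerset_mono.mpr Finset.sdiff_subset
  · intro S hS hS2
    rw [Finset.mem_powerset] at hS hS2
    have : ∃ k ∈ S, k ∈ U := by
      by_contra hcon
      push Not at hcon
      exact hS2 fun a ha => Finset.mem_sdiff.mpr ⟨hS ha, hcon a ha⟩
    obtain ⟨k, hkS, hkU⟩ := this
    obtain ⟨t, ht⟩ := hne
    exact fd.D_edge _ _ t k (Finset.union_subset hT.sub ((hS.trans hN).trans nb_sub))
      (Finset.mem_union_left _ ht) (Finset.mem_union_right _ hkS) (adj_U cf hT hkU ht)

theorem red_F (fd : FDS G F D) (cf : Cfg G C K U) {W : Finset V}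
    (hW : ∀ v, v ∉ W → v ∈ C) {w : V} (hw : w ∈ C) :
    ∑ S ∈ (nb G W w).powerset, F (W.erase w) S =
      (U.card : ℝ) + ∑ S ∈ (nb G W w \ U).powerset, F (W.erase w) S :=
  red_FN fd cf hw (U_sub_nb cf hW hw) subset_rfl

theorem red_D (fd : FDS G F D) (cf : Cfg G C K U) {W : Finset V}
    (hW : ∀ v, v ∉ W → v ∈ C) {w : V} (hw : w ∈ C) :
    ∑ S ∈ (nb G W w).powerset, D (W.erase w) S =
      ∑ S ∈ (nb G W w \ U).powerset, D (W.erase w) S :=
  red_DN fd cf hw (U_sub_nb cf hW hw) subset_rfl

theorem red_FT (fd : FDS G F D) (cf : Cfg G C K U) {W : Finset V}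
    {w : V} {T : Finset V} (hT : St G C K U (W.erase w) T) (hne : T.Nonempty) :
    ∑ S ∈ (nb G W w).powerset, F (W.erase w) (T ∪ S) =
      ∑ S ∈ (nb G W w \ U).powerset, F (W.erase w) (T ∪ S) :=
  red_FTN fd cf hT hne subset_rfl

theorem red_DT (fd : FDS G F D) (cf : Cfg G C K U) {W : Finset V}
    {w : V} {T : Finset V} (hT : St G C K U (W.erase w) T) (hne : T.Nonempty) :
    ∑ S ∈ (nb G W w).powerset, D (W.erase w) (T ∪ S) =
      ∑ S ∈ (nb G W w \ U).powerset, D (W.erase w) (T ∪ S) :=
  red_DTN fd cf hT hne subset_rfl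

end

end Pool.Agent.SCP
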