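import Pool.Agent.SCP.Main

set_option autoImplicit false
set_option linter.unusedSectionVars false

/-!
# The final step
-/

open Polynomial

namespace Pool.Agent.SCP

open Pool.Agent.BCF

variable {V : Type} [Fintype V] [DecidableEq V] {G : SimpleGraph V} [DecidableRel G.Adj]
  {C K U : Finset V}

/-- The generating function of the subsets. -/
theorem sum_card_pow (t : ℝ) (N : Finset V) :
    ∑ S ∈ N.powerset, t ^ S.card = (1 + t) ^ N.card ∧
    (1 + t) * ∑ S ∈ N.powerset, ((S.card : ℝ) - 1) * t ^ S.card =
      -((1 + t) ^ N.card * (1 + t - N.card * t)) := by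
  induction N using Finset.induction_on with
  | empty => constructor <;> simp
  | insert a N ha ih =>
    obtain ⟨i1, i2⟩ := ih
    have hc : ∀ S ∈ N.powerset, (insert a S).card = S.card + 1 := by
      intro S hS
      rw [Finset.mem_powerset] at hS
      exact Finset.card_insert_of_notMem fun h => ha (hS h)
    have e1 : ∑ S ∈ N.powerset, t ^ (insert a S).card = t * ∑ S ∈ N.powerset, t ^ S.card := by
      rw [Finset.mul_sum]
      refine Finset.sum_congr rfl fun S hS => ?_
      rw [hc S hS, pow_succ]; ring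
    have e2 : ∑ S ∈ N.powerset, (((insert a S).card : ℝ) - 1) * t ^ (insert a S).card =
        t * (∑ S ∈ N.powerset, ((S.card : ℝ) - 1) * t ^ S.card) +
          t * ∑ S ∈ N.powerset, t ^ S.card := by
      rw [Finset.mul_sum, Finset.mul_sum, ← Finset.sum_add_distrib]
      refine Finset.sum_congr rfl fun S hS => ?_
      rw [hc S hS, pow_succ]; push_cast; ring
    rw [Finset.sum_powerset_insert ha, Finset.sum_powerset_insert ha, e1, e2,
      Finset.card_insert_of_notMem ha, i1]
    constructor
    · ring
    · have e3 : (1 + t) * (∑ S ∈ N.powerset, ((S.card : ℝ) - 1) * t ^ S.card +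
          (t * (∑ S ∈ N.powerset, ((S.card : ℝ) - 1) * t ^ S.card) + t * (1 + t) ^ N.card)) =
          (1 + t) * ((1 + t) * ∑ S ∈ N.powerset, ((S.card : ℝ) - 1) * t ^ S.card) +
            (1 + t) * (t * (1 + t) ^ N.card) := by ring
      rw [e3, i2]
      push_cast
      ring

theorem wt_card {N : Finset V} {y : ℝ} (hy : 0 < y) (hN : (N.card : ℝ) ≤ y + 1) :
    wt G y N ≤ 1 := by
  have h1 := (sum_card_pow (1 / y) N).2
  have ht : 0 < 1 / y := by positivity
  have h2 : 0 ≤ 1 + 1 / y - N.card * (1 / y) := by
    have : 1 + 1 / y - N.card * (1 / y) = (y + 1 - N.card) / y := by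
      field_simp
    rw [this]
    apply div_nonneg _ hy.le
    linarith
  have h3 : ∑ S ∈ N.powerset, ((S.card : ℝ) - 1) * (1 / y) ^ S.card ≤ 0 := by
    by_contra hcon
    push Not at hcon
    have h4 : 0 < (1 + 1 / y) * ∑ S ∈ N.powerset, ((S.card : ℝ) - 1) * (1 / y) ^ S.card :=
      mul_pos (by positivity) hcon
    rw [h1] at h4
    have h5 : 0 ≤ (1 + 1 / y) ^ N.card * (1 + 1 / y - N.card * (1 / y)) :=
      mul_nonneg (by positivity) h2
    linarith
  have h6 : wt G y N ≤
      ∑ S ∈ N.powerset, ((((S.card : ℝ) - 1) * (1 / y) ^ S.card) + if S = ∅ then 1 else 0) := by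
    unfold wt
    rw [Finset.sum_filter]
    refine Finset.sum_le_sum fun S _ => ?_
    by_cases h : 2 ≤ S.card ∧ ∀ a ∈ S, ∀ b ∈ S, ¬ G.Adj a b
    · rw [if_pos h, if_neg, add_zero, div_eq_mul_inv, one_div, inv_pow]
      rintro rfl
      simp at h
    · rw [if_neg h]
      by_cases hS : S = ∅
      · subst hS
        simp
      · rw [if_neg hS, add_zero]
        have : 1 ≤ S.card := Finset.card_pos.mpr (Finset.nonempty_iff_ne_empty.mpr hS)
        have h7 : (1 : ℝ) ≤ S.card := by exact_mod_cast this
        exact mul_nonneg (by linarith) (by positivity)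
  rw [Finset.sum_add_distrib, Finset.sum_ite_eq', if_pos (Finset.empty_mem_powerset _)] at h6
  linarith

theorem edges_univ (w : V) :
    G.edgeFinset = EW G (Finset.univ.erase w) ∪ star w (nb G Finset.univ w) := by
  rw [← EW_split (Finset.mem_univ w)]
  unfold EW
  rw [Finset.sym2_univ, Finset.inter_univ]

theorem edges_erase {w u : V} (h : G.Adj w u) :
    G.edgeFinset.erase s(w, u) =
      EW G (Finset.univ.erase w) ∪ star w ((nb G Finset.univ w).erase u) := by
  rw [edges_univ w, Finset.erase_union_distrib]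
  congr 1
  · rw [Finset.erase_eq_of_notMem]
    intro h'
    exact notMem_EW_erase _ h' (by simp)
  · unfold star
    ext s
    rw [Finset.mem_erase, Finset.mem_image, Finset.mem_image]
    constructor
    · rintro ⟨h1, a, ha, rfl⟩
      refine ⟨a, Finset.mem_erase.mpr ⟨?_, ha⟩, rfl⟩
      rintro rfl
      exact h1 rfl
    · rintro ⟨a, ha, rfl⟩
      rw [Finset.mem_erase] at ha
      refine ⟨?_, a, ha.2, rfl⟩
      intro h'
      rcases Sym2.eq_iff.mp h' with h2 | h2
      · exact ha.1 h2.2
      · exact h.ne h2.1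

/-- The comparison of the means. -/
theorem lower {ε : Finset (Sym2 V) → ℝ}
    (hε : ∀ E : Finset (Sym2 V), ε E =
        (∑ A ∈ E.powerset,
            ((Fintype.card V : ℝ) -
              (Nat.card (SimpleGraph.fromEdgeSet (A : Set (Sym2 V))).ConnectedComponent : ℝ)) *
            (-1 : ℝ) ^ (A.card + Fintype.card V +
              Nat.card (SimpleGraph.fromEdgeSet (A : Set (Sym2 V))).ConnectedComponent)) /
        (∑ A ∈ E.powerset,
            (-1 : ℝ) ^ (A.card + Fintype.card V +
              Nat.card (SimpleGraph.fromEdgeSet (A : Set (Sym2 V))).ConnectedComponent)))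
    {w u : V} (hwu : G.Adj w u)
    (h : (∑ S ∈ ((nb G Finset.univ w).erase u).powerset,
          DD (EW G (Finset.univ.erase w)) ({u} ∪ S)) *
        (∑ S ∈ ((nb G Finset.univ w).erase u).powerset, FF (EW G (Finset.univ.erase w)) S) <
      (∑ S ∈ ((nb G Finset.univ w).erase u).powerset,
          FF (EW G (Finset.univ.erase w)) ({u} ∪ S)) *
        (1 + ∑ S ∈ ((nb G Finset.univ w).erase u).powerset,
          DD (EW G (Finset.univ.erase w)) S)) :
    ε (G.edgeFinset.erase s(w, u)) < ε G.edgeFinset := by
  have hun : u ∈ nb G Finset.univ w := by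
    unfold nb
    rw [Finset.mem_filter]
    exact ⟨Finset.mem_univ _, hwu⟩
  have hE : ∀ s ∈ G.edgeFinset, ¬ s.IsDiag := by
    intro s hs
    rw [SimpleGraph.mem_edgeFinset] at hs
    exact G.not_isDiag_of_mem_edgeSet hs
  have hE' : ∀ s ∈ G.edgeFinset.erase s(w, u), ¬ s.IsDiag :=
    fun s hs => hE s (Finset.mem_of_mem_erase hs)
  have f := final_step (E := EW G (Finset.univ.erase w)) (w := w) (u := u)
    (N := (nb G Finset.univ w).erase u) EW_loop notMem_EW_erase
    (fun h => notMem_nb (Finset.mem_of_mem_erase h)) (Finset.notMem_erase _ _) hwu.ne h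
  rw [Finset.insert_erase hun, ← edges_univ, ← edges_erase hwu] at f
  have p1 := aa_empty_pos hE
  have p0 := aa_empty_pos hE'
  have e : ∀ E : Finset (Sym2 V), (∀ s ∈ E, ¬ s.IsDiag) → ε E = Fintype.card V - bb E ∅ / aa E ∅ := by
    intro E hE
    rw [eps_eq hε hE]
    unfold bb aa
    rw [PT_sub (T := ∅) (by simp), sg_empty]
    have hu : ((-1 : ℝ) ^ Fintype.card V) ≠ 0 := by positivity
    rw [neg_div, mul_div_mul_left _ _ hu]
    ring
  rw [e _ hE, e _ hE']
  have : bb G.edgeFinset ∅ / aa G.edgeFinset ∅ <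
      bb (G.edgeFinset.erase s(w, u)) ∅ / aa (G.edgeFinset.erase s(w, u)) ∅ := by
    rw [div_lt_div_iff₀ p1 p0]
    linarith
  linarith

/-- Every edge from `C` to a vertex outside `U` is good. -/
theorem good_edge (cf : Cfg G C K U) {w u : V} (hw : w ∈ C) (hu : u ∉ U) (hwu : G.Adj w u) :
    (∑ S ∈ ((nb G Finset.univ w).erase u).powerset,
          DD (EW G (Finset.univ.erase w)) ({u} ∪ S)) *
        (∑ S ∈ ((nb G Finset.univ w).erase u).powerset, FF (EW G (Finset.univ.erase w)) S) <
      (∑ S ∈ ((nb G Finset.univ w).erase u).powerset,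
          FF (EW G (Finset.univ.erase w)) ({u} ∪ S)) *
        (1 + ∑ S ∈ ((nb G Finset.univ w).erase u).powerset,
          DD (EW G (Finset.univ.erase w)) S) := by
  have fd := fds G
  have hW : ∀ v, v ∉ (Finset.univ : Finset V).erase w → v ∈ C := by
    intro v hv
    rw [Finset.mem_erase] at hv
    push Not at hv
    by_cases h : v = w
    · rw [h]; exact hw
    · exact absurd (Finset.mem_univ v) (hv h)
  have hUN : U ⊆ (nb G Finset.univ w).erase u := by
    intro k hk
    rw [Finset.mem_erase]
    refine ⟨?_, ?_⟩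
    · rintro rfl; exact hu hk
    · unfold nb
      rw [Finset.mem_filter]
      exact ⟨Finset.mem_univ _, cf.CU w hw k hk⟩
  have hT : St G C K U (Finset.univ.erase w) {u} := by
    refine ⟨?_, ?_, ?_, ?_⟩
    · rw [Finset.singleton_subset_iff, Finset.mem_erase]
      exact ⟨hwu.ne', Finset.mem_univ _⟩
    · intro t ht
      rw [Finset.mem_singleton] at ht
      subst ht
      exact cf.nbr w hw t hwu
    · intro t ht
      rw [Finset.mem_singleton] at ht
      subst ht
      exact hu
    · intro t ht _
      rw [Finset.mem_singleton] at ht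
      subst ht
      exact ⟨w, Finset.notMem_erase _ _, hwu.symm⟩
  have r1 := red_FN fd cf (W := Finset.univ) hw hUN (Finset.erase_subset _ _)
  have r2 := red_DN fd cf (W := Finset.univ) hw hUN (Finset.erase_subset _ _)
  have r3 := red_FTN fd cf (W := Finset.univ) (w := w) hT (Finset.singleton_nonempty u)
    (Finset.erase_subset u (nb G Finset.univ w))
  have r4 := red_DTN fd cf (W := Finset.univ) (w := w) hT (Finset.singleton_nonempty u)
    (Finset.erase_subset u (nb G Finset.univ w))
  rw [r1, r2, r3, r4]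
  have hsub : (nb G Finset.univ w).erase u \ U ⊆ nb G Finset.univ w \ U :=
    Finset.sdiff_subset_sdiff (Finset.erase_subset _ _) subset_rfl
  have hcomm : (nb G Finset.univ w).erase u \ U = (nb G Finset.univ w \ U).erase u := by
    ext a
    simp only [Finset.mem_sdiff, Finset.mem_erase]
    tauto
  refine key_L fd cf hW (main fd cf _ _ rfl hW) ?_ (fun S hS => St.star cf hw (hS.trans hsub))
    ?_ hT (Finset.singleton_nonempty u) ?_ ?_
  · intro a ha haC
    refine main fd cf _ _ rfl ?_
    intro v hv
    rw [Finset.mem_erase] at hv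
    push Not at hv
    by_cases h : v = a
    · rw [h]; exact haC
    · exact hW v (hv h)
  · rw [hcomm]
    exact cf.cond w hw u hwu hu
  · rw [Finset.disjoint_singleton_left, Finset.mem_sdiff]
    rintro ⟨h, _⟩
    exact Finset.notMem_erase _ _ h
  · intro a ha b hb
    rw [Finset.mem_singleton] at ha hb
    subst ha; subst hb
    exact G.irrefl

/-- Edges at a simplicial vertex are good. -/
theorem good_simplicial {w u : V} (hwu : G.Adj w u)
    (hs : ∀ a b, G.Adj w a → G.Adj w b → a ≠ b → G.Adj a b) :
    (∑ S ∈ ((nb G Finset.univ w).erase u).powerset,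
          DD (EW G (Finset.univ.erase w)) ({u} ∪ S)) *
        (∑ S ∈ ((nb G Finset.univ w).erase u).powerset, FF (EW G (Finset.univ.erase w)) S) <
      (∑ S ∈ ((nb G Finset.univ w).erase u).powerset,
          FF (EW G (Finset.univ.erase w)) ({u} ∪ S)) *
        (1 + ∑ S ∈ ((nb G Finset.univ w).erase u).powerset,
          DD (EW G (Finset.univ.erase w)) S) := by
  have fd := fds G
  have hun : u ∈ nb G Finset.univ w := by
    unfold nb
    rw [Finset.mem_filter]
    exact ⟨Finset.mem_univ _, hwu⟩
  -- every set of neighbours has derivative zero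
  have hD : ∀ T : Finset V, T ⊆ nb G Finset.univ w → DD (EW G (Finset.univ.erase w)) T = 0 := by
    intro T hT
    by_cases h2 : 2 ≤ T.card
    · obtain ⟨a, ha, c, hc, hac⟩ := Finset.one_lt_card.mp (by omega : 1 < T.card)
      refine fd.D_edge (Finset.univ.erase w) T a c (hT.trans nb_sub) ha hc (hs a c ?_ ?_ hac)
      · exact (Finset.mem_filter.mp (hT ha)).2
      · exact (Finset.mem_filter.mp (hT hc)).2
    · have h3 : T.card = 0 ∨ T.card = 1 := by omega
      rcases h3 with h3 | h3
      · rw [Finset.card_eq_zero.mp h3]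
        exact fd.D_empty _
      · obtain ⟨v, rfl⟩ := Finset.card_eq_one.mp h3
        exact fd.D_single _ v
  have hsub : ∀ S ∈ ((nb G Finset.univ w).erase u).powerset, S ⊆ nb G Finset.univ w := by
    intro S hS
    rw [Finset.mem_powerset] at hS
    exact hS.trans (Finset.erase_subset _ _)
  have hsub2 : ∀ S ∈ ((nb G Finset.univ w).erase u).powerset,
      {u} ∪ S ⊆ nb G Finset.univ w := by
    intro S hS
    refine Finset.union_subset ?_ (hsub S hS)
    rw [Finset.singleton_subset_iff]
    exact hun
  rw [Finset.sum_eq_zero fun S hS => hD _ (hsub2 S hS),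
    Finset.sum_eq_zero fun S hS => hD _ (hsub S hS)]
  have h1 : (1 : ℝ) ≤ ∑ S ∈ ((nb G Finset.univ w).erase u).powerset,
      FF (EW G (Finset.univ.erase w)) ({u} ∪ S) := by
    calc (1 : ℝ) = FF (EW G (Finset.univ.erase w)) ({u} ∪ ∅) := by
          rw [Finset.union_empty]
          exact (fd.F_single (Finset.univ.erase w) u).symm
      _ ≤ _ := Finset.single_le_sum (f := fun S => FF (EW G (Finset.univ.erase w)) ({u} ∪ S))
        (fun S hS => fd.F_nonneg (Finset.univ.erase w) _ ((hsub2 S hS).trans nb_sub))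
        (Finset.empty_mem_powerset _)
  rw [zero_mul, add_zero, mul_one]
  linarith

end Pool.Agent.SCP
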