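import Pool.Agent.SCP.Cfg

set_option autoImplicit false
set_option linter.unusedSectionVars false

/-!
# The induction
-/

namespace Pool.Agent.SCP

variable {V : Type} [Fintype V] [DecidableEq V] {G : SimpleGraph V} [DecidableRel G.Adj]
  {C K U : Finset V} {F D : Finset V → Finset V → ℝ}

/-- The inequalities for the vertex set `W`. -/
structure PP (G : SimpleGraph V) (C K U : Finset V) (F D : Finset V → Finset V → ℝ)
    (W : Finset V) : Prop where
  M : ∀ T w, T.Nonempty → w ∉ T → St G C K U W (insert w T) →
    ((U.card : ℝ) + 1) * F W (insert w T) ≤ F W T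
  V : ∀ T w, T.Nonempty → w ∉ T → St G C K U W (insert w T) →
    D W T ≤ ((U.card : ℝ) + 1) * D W (insert w T) + F W (insert w T)
  L : ∀ T, St G C K U W T → 2 ≤ T.card → Ind G T → D W T < 0

theorem D_nonpos (fd : FDS G F D) {W : Finset V} (pp : PP G C K U F D W) {T : Finset V}
    (hT : St G C K U W T) : D W T ≤ 0 := by
  by_cases h2 : 2 ≤ T.card
  · by_cases hi : Ind G T
    · exact (pp.L T hT h2 hi).le
    · unfold Ind at hi
      push Not at hi
      obtain ⟨a, ha, b, hb, hab⟩ := hi
      rw [fd.D_edge W T a b hT.sub ha hb hab]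
  · have h3 : T.card = 0 ∨ T.card = 1 := by omega
    rcases h3 with h3 | h3
    · rw [Finset.card_eq_zero.mp h3, fd.D_empty]
    · obtain ⟨v, rfl⟩ := Finset.card_eq_one.mp h3
      rw [fd.D_single]

theorem bounds (fd : FDS G F D) {W : Finset V} (pp : PP G C K U F D W) :
    ∀ T : Finset V, T.Nonempty → St G C K U W T →
      F W T * ((U.card : ℝ) + 1) ^ (T.card - 1) ≤ 1 ∧
      -((T.card : ℝ) - 1) ≤ D W T * ((U.card : ℝ) + 1) ^ T.card := by
  intro T
  induction T using Finset.induction_on with
  | empty => intro h; exact absurd h Finset.not_nonempty_empty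
  | insert w T hw ih =>
    intro _ hT
    have hy : (0 : ℝ) < (U.card : ℝ) + 1 := by positivity
    rcases T.eq_empty_or_nonempty with rfl | hne
    · have e : insert w (∅ : Finset V) = {w} := rfl
      rw [e, fd.F_single, fd.D_single]
      simp
    · obtain ⟨i1, i2⟩ := ih hne (hT.mono (Finset.subset_insert _ _))
      have hm := pp.M T w hne hw hT
      have hv := pp.V T w hne hw hT
      obtain ⟨j, hj⟩ : ∃ j, T.card = j + 1 := ⟨T.card - 1, by
        have := Finset.card_pos.mpr hne; omega⟩
      have hcard : (insert w T).card = j + 2 := by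
        rw [Finset.card_insert_of_notMem hw, hj]
      rw [hj] at i1 i2
      rw [hcard]
      simp only [Nat.add_sub_cancel] at i1
      have e1 : j + 2 - 1 = j + 1 := rfl
      rw [e1]
      set y : ℝ := (U.card : ℝ) + 1 with hydef
      have hyj : (0 : ℝ) < y ^ j := pow_pos hy j
      have hyj1 : (0 : ℝ) < y ^ (j + 1) := pow_pos hy (j + 1)
      have b1 : F W (insert w T) * y ^ (j + 1) ≤ 1 := by
        calc F W (insert w T) * y ^ (j + 1) = (y * F W (insert w T)) * y ^ j := by ring
          _ ≤ F W T * y ^ j := mul_le_mul_of_nonneg_right hm hyj.le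
          _ ≤ 1 := i1
      refine ⟨b1, ?_⟩
      have b2 : D W T * y ^ (j + 1) ≤ (y * D W (insert w T) + F W (insert w T)) * y ^ (j + 1) :=
        mul_le_mul_of_nonneg_right hv hyj1.le
      have e2 : (y * D W (insert w T) + F W (insert w T)) * y ^ (j + 1) =
          D W (insert w T) * y ^ (j + 2) + F W (insert w T) * y ^ (j + 1) := by ring
      rw [e2] at b2
      push_cast at i2 ⊢
      linarith

theorem D_lower (fd : FDS G F D) {W : Finset V} (pp : PP G C K U F D W) {T : Finset V}
    (hT : St G C K U W T) :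
    -(if 2 ≤ T.card ∧ ∀ a ∈ T, ∀ b ∈ T, ¬ G.Adj a b then
      ((T.card : ℝ) - 1) / ((U.card : ℝ) + 1) ^ T.card else 0) ≤ D W T := by
  have hy : (0 : ℝ) < (U.card : ℝ) + 1 := by positivity
  by_cases h2 : 2 ≤ T.card
  · by_cases hi : Ind G T
    · rw [if_pos ⟨h2, hi⟩]
      have hne : T.Nonempty := Finset.card_pos.mp (by omega)
      have := (bounds fd pp T hne hT).2
      rw [← neg_div, div_le_iff₀ (pow_pos hy _)]
      exact this
    · rw [if_neg (fun h => hi h.2), neg_zero]
      unfold Ind at hi
      push Not at hi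
      obtain ⟨a, ha, b, hb, hab⟩ := hi
      rw [fd.D_edge W T a b hT.sub ha hb hab]
  · rw [if_neg (fun h => h2 h.1), neg_zero]
    have h3 : T.card = 0 ∨ T.card = 1 := by omega
    rcases h3 with h3 | h3
    · rw [Finset.card_eq_zero.mp h3, fd.D_empty]
    · obtain ⟨v, rfl⟩ := Finset.card_eq_one.mp h3
      rw [fd.D_single]

theorem sum_D_lower (fd : FDS G F D) {W : Finset V} (pp : PP G C K U F D W) {N : Finset V}
    (hN : ∀ S ⊆ N, St G C K U W S) :
    -wt G ((U.card : ℝ) + 1) N ≤ ∑ S ∈ N.powerset, D W S := by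
  unfold wt
  rw [Finset.sum_filter, ← Finset.sum_neg_distrib]
  exact Finset.sum_le_sum fun S hS => D_lower fd pp (hN S (Finset.mem_powerset.mp hS))

theorem sum_D_lower_strict (fd : FDS G F D) {W : Finset V} (pp : PP G C K U F D W)
    {N : Finset V} (hN : ∀ S ⊆ N, St G C K U W S) {a c : V} (ha : a ∈ N) (hc : c ∈ N)
    (hac : a ≠ c) (hadj : ¬ G.Adj a c)
    (hF : ((U.card : ℝ) + 1) * F W {a, c} < 1) :
    -wt G ((U.card : ℝ) + 1) N < ∑ S ∈ N.powerset, D W S := by
  have hy : (0 : ℝ) < (U.card : ℝ) + 1 := by positivity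
  unfold wt
  rw [Finset.sum_filter, ← Finset.sum_neg_distrib]
  have hsub : ({a, c} : Finset V) ⊆ N := by
    intro x hx
    rw [Finset.mem_insert, Finset.mem_singleton] at hx
    rcases hx with rfl | rfl
    · exact ha
    · exact hc
  refine Finset.sum_lt_sum (fun S hS => D_lower fd pp (hN S (Finset.mem_powerset.mp hS)))
    ⟨{a, c}, Finset.mem_powerset.mpr hsub, ?_⟩
  have hcard : ({a, c} : Finset V).card = 2 := Finset.card_pair hac
  have hind : ∀ x ∈ ({a, c} : Finset V), ∀ z ∈ ({a, c} : Finset V), ¬ G.Adj x z := by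
    intro x hx z hz
    rw [Finset.mem_insert, Finset.mem_singleton] at hx hz
    rcases hx with rfl | rfl <;> rcases hz with rfl | rfl
    · exact G.irrefl
    · exact hadj
    · exact fun h => hadj h.symm
    · exact G.irrefl
  rw [if_pos ⟨hcard.ge, hind⟩, hcard]
  have hv := pp.V {c} a (Finset.singleton_nonempty c) (by simpa using hac) (hN _ hsub)
  rw [fd.D_single] at hv
  have e : insert a ({c} : Finset V) = {a, c} := rfl
  rw [e] at hv
  rw [← neg_div, div_lt_iff₀ (pow_pos hy 2)]
  push_cast
  nlinarith [hv, hF, hy]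

/-- The removal of `w`: the main term in the reduced form. -/
theorem stepF (fd : FDS G F D) (cf : Cfg G C K U) {W : Finset V}
    (hW : ∀ v, v ∉ W → v ∈ C) {w : V} (hw : w ∈ C) (hwW : w ∈ W) {T : Finset V}
    (hT : St G C K U (W.erase w) T) (hne : T.Nonempty) (hadj : ∀ a ∈ T, ¬ G.Adj w a) :
    F W (insert w T) *
      ((U.card : ℝ) + ∑ S ∈ (nb G W w \ U).powerset, F (W.erase w) S) =
      ∑ S ∈ (nb G W w \ U).powerset, F (W.erase w) (T ∪ S) := by
  have hwT : w ∉ T := fun h => (Finset.notMem_erase w W) (hT.sub h)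
  have h := fd.F_step W w T hwW (hT.sub.trans (Finset.erase_subset _ _)) hwT hne hadj
  rwa [red_F fd cf hW hw, red_FT fd cf hT hne] at h

theorem stepD (fd : FDS G F D) (cf : Cfg G C K U) {W : Finset V}
    (hW : ∀ v, v ∉ W → v ∈ C) {w : V} (hw : w ∈ C) (hwW : w ∈ W) {T : Finset V}
    (hT : St G C K U (W.erase w) T) (hne : T.Nonempty) (hadj : ∀ a ∈ T, ¬ G.Adj w a) :
    D W (insert w T) *
      ((U.card : ℝ) + ∑ S ∈ (nb G W w \ U).powerset, F (W.erase w) S) +
      F W (insert w T) * (1 + ∑ S ∈ (nb G W w \ U).powerset, D (W.erase w) S) =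
      ∑ S ∈ (nb G W w \ U).powerset, D (W.erase w) (T ∪ S) := by
  have hwT : w ∉ T := fun h => (Finset.notMem_erase w W) (hT.sub h)
  have h := fd.D_step W w T hwW (hT.sub.trans (Finset.erase_subset _ _)) hwT hne hadj
  rwa [red_F fd cf hW hw, red_D fd cf hW hw, red_DT fd cf hT hne] at h

theorem B_ge (fd : FDS G F D) {W : Finset V} {N : Finset V} (hN : ∀ S ⊆ N, S ⊆ W) :
    1 ≤ ∑ S ∈ N.powerset, F W S := by
  calc (1 : ℝ) = F W ∅ := (fd.F_empty _).symm
    _ ≤ _ := Finset.single_le_sum (f := fun S => F W S)
      (fun S hS => fd.F_nonneg W S (hN S (Finset.mem_powerset.mp hS)))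
      (Finset.empty_mem_powerset _)

theorem split_empty {N : Finset V} (q : Finset V → ℝ) :
    ∑ S ∈ N.powerset, q S = q ∅ + ∑ S ∈ N.powerset.erase ∅, q S :=
  (Finset.add_sum_erase _ _ (Finset.empty_mem_powerset N)).symm

/-- Two nonadjacent vertices with a common neighbour. -/
theorem F_pair_lt (fd : FDS G F D) (cf : Cfg G C K U) {W : Finset V}
    (hW : ∀ v, v ∉ W → v ∈ C) {a c u : V} (haC : a ∈ C) (hac : a ≠ c)
    (hadj : ¬ G.Adj a c) (hSt : St G C K U W {a, c}) (hu : u ∈ W) (huU : u ∉ U)
    (hau : G.Adj a u) (hcu : G.Adj c u) (pp : PP G C K U F D (W.erase a)) :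
    ((U.card : ℝ) + 1) * F W {a, c} < 1 := by
  have haW : a ∈ W := hSt.sub (Finset.mem_insert_self _ _)
  have hcW : c ∈ W := hSt.sub (by simp)
  have hTc : St G C K U (W.erase a) {c} :=
    (hSt.mono (by simp)).erase (by simpa using hac)
  have h := stepF fd cf hW haC haW hTc (Finset.singleton_nonempty c)
    (by intro x hx; rw [Finset.mem_singleton] at hx; subst hx; exact hadj)
  have e : insert a ({c} : Finset V) = {a, c} := rfl
  rw [e] at h
  set N := nb G W a \ U with hN
  have hNst : ∀ S ⊆ N, St G C K U (W.erase a) S := fun S hS => St.star cf haC hS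
  have hcN : ∀ S ⊆ N, c ∉ S := by
    intro S hS hc
    have := hS hc
    rw [hN, Finset.mem_sdiff] at this
    unfold nb at this
    rw [Finset.mem_filter] at this
    exact hadj this.1.2
  have huN : {u} ∈ N.powerset.erase ∅ := by
    rw [Finset.mem_erase, Finset.mem_powerset, Finset.singleton_subset_iff, hN,
      Finset.mem_sdiff]
    unfold nb
    rw [Finset.mem_filter]
    exact ⟨Finset.singleton_ne_empty u, ⟨hu, hau⟩, huU⟩
  rw [split_empty fun S => F (W.erase a) ({c} ∪ S), split_empty fun S => F (W.erase a) S] at h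
  simp only [Finset.union_empty, fd.F_single, fd.F_empty] at h
  have hterm : ∀ S ∈ N.powerset.erase ∅,
      ((U.card : ℝ) + 1) * F (W.erase a) ({c} ∪ S) ≤ F (W.erase a) S := by
    intro S hS
    rw [Finset.mem_erase, Finset.mem_powerset] at hS
    have h3 := pp.M S c (Finset.nonempty_iff_ne_empty.mpr hS.1) (hcN S hS.2)
      (by rw [Finset.insert_eq]; exact hTc.union (hNst S hS.2))
    rwa [Finset.insert_eq] at h3
  have hzero : F (W.erase a) ({c} ∪ {u}) = 0 := by
    refine fd.F_edge _ _ c u ?_ (by simp) (by simp) hcu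
    intro x hx
    rw [Finset.mem_union, Finset.mem_singleton, Finset.mem_singleton] at hx
    rcases hx with rfl | rfl
    · exact Finset.mem_erase.mpr ⟨hac.symm, hcW⟩
    · exact Finset.mem_erase.mpr ⟨hau.ne', hu⟩
  have hlt : ∑ S ∈ N.powerset.erase ∅, ((U.card : ℝ) + 1) * F (W.erase a) ({c} ∪ S) <
      ∑ S ∈ N.powerset.erase ∅, F (W.erase a) S := by
    refine Finset.sum_lt_sum hterm ⟨{u}, huN, ?_⟩
    rw [hzero, fd.F_single]
    simp
  rw [← Finset.mul_sum] at hlt
  have hpos : (0 : ℝ) ≤ ∑ S ∈ N.powerset.erase ∅, F (W.erase a) S := by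
    refine Finset.sum_nonneg fun S hS => fd.F_nonneg _ _ (hNst S ?_).sub
    rw [Finset.mem_erase, Finset.mem_powerset] at hS
    exact hS.2
  set y : ℝ := (U.card : ℝ) + 1
  have hy : (0 : ℝ) < y := by positivity
  set P := ∑ S ∈ N.powerset.erase ∅, F (W.erase a) S
  set Q := ∑ S ∈ N.powerset.erase ∅, F (W.erase a) ({c} ∪ S)
  have hB : (U.card : ℝ) + (1 + P) = y + P := by ring
  rw [hB] at h
  by_contra hcon
  push Not at hcon
  have h5 : y * (F W {a, c} * (y + P)) = y * (1 + Q) := by rw [h]
  have h6 : (y + P) ≤ (y * F W {a, c}) * (y + P) := by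
    nlinarith [mul_le_mul_of_nonneg_right hcon (by positivity : (0 : ℝ) ≤ y + P)]
  nlinarith [h5, h6, hlt]

/-- The key step for `L`. -/
theorem key_L (fd : FDS G F D) (cf : Cfg G C K U) {W : Finset V}
    (hW : ∀ v, v ∉ W → v ∈ C) (pp : PP G C K U F D W)
    (pp2 : ∀ a ∈ W, a ∈ C → PP G C K U F D (W.erase a)) {N T : Finset V}
    (hN : ∀ S ⊆ N, St G C K U W S) (hwt : wt G ((U.card : ℝ) + 1) N ≤ 1)
    (hT : St G C K U W T) (hne : T.Nonempty) (hd : Disjoint T N) (hi : Ind G T) :
    (∑ S ∈ N.powerset, D W (T ∪ S)) * ((U.card : ℝ) + ∑ S ∈ N.powerset, F W S) <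
      (∑ S ∈ N.powerset, F W (T ∪ S)) * (1 + ∑ S ∈ N.powerset, D W S) := by
  have hB1 : 1 ≤ ∑ S ∈ N.powerset, F W S := B_ge fd fun S hS => (hN S hS).sub
  have hB : 0 < (U.card : ℝ) + ∑ S ∈ N.powerset, F W S := by positivity
  have hA0 : 0 ≤ ∑ S ∈ N.powerset, F W (T ∪ S) := Finset.sum_nonneg fun S hS =>
    fd.F_nonneg _ _ (hT.union (hN S (Finset.mem_powerset.mp hS))).sub
  have hterm : ∀ S ∈ N.powerset, D W (T ∪ S) ≤ 0 := fun S hS =>
    D_nonpos fd pp (hT.union (hN S (Finset.mem_powerset.mp hS)))
  have hA' : ∑ S ∈ N.powerset, D W (T ∪ S) ≤ 0 := Finset.sum_nonpos hterm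
  have hB' : 0 ≤ 1 + ∑ S ∈ N.powerset, D W S := by
    have := sum_D_lower fd pp hN
    linarith
  -- a strictly negative term suffices
  have hneg : (∃ S ∈ N.powerset, D W (T ∪ S) < 0) →
      (∑ S ∈ N.powerset, D W (T ∪ S)) * ((U.card : ℝ) + ∑ S ∈ N.powerset, F W S) <
      (∑ S ∈ N.powerset, F W (T ∪ S)) * (1 + ∑ S ∈ N.powerset, D W S) := by
    rintro ⟨S, hS, hS'⟩
    have h1 : ∑ S ∈ N.powerset, D W (T ∪ S) < 0 := by
      calc ∑ S ∈ N.powerset, D W (T ∪ S) < ∑ S ∈ N.powerset, (0 : ℝ) :=
            Finset.sum_lt_sum hterm ⟨S, hS, hS'⟩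
        _ = 0 := Finset.sum_const_zero
    calc _ < 0 := mul_neg_of_neg_of_pos h1 hB
      _ ≤ _ := mul_nonneg hA0 hB'
  by_cases h2 : 2 ≤ T.card
  · refine hneg ⟨∅, Finset.empty_mem_powerset _, ?_⟩
    rw [Finset.union_empty]
    exact pp.L T hT h2 hi
  · have h3 : T.card = 1 := by
      have := Finset.card_pos.mpr hne
      omega
    obtain ⟨u, rfl⟩ := Finset.card_eq_one.mp h3
    rw [Finset.disjoint_singleton_left] at hd
    by_cases hall : ∃ a ∈ N, ¬ G.Adj u a
    · obtain ⟨a, ha, hua⟩ := hall
      refine hneg ⟨{a}, Finset.mem_powerset.mpr (by simpa using ha), ?_⟩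
      have hne' : u ≠ a := fun h => hd (h ▸ ha)
      refine pp.L _ (hT.union (hN _ (by simpa using ha))) ?_ ?_
      · rw [← Finset.insert_eq, Finset.card_pair hne']
      · intro x hx z hz
        rw [Finset.mem_union, Finset.mem_singleton, Finset.mem_singleton] at hx hz
        rcases hx with rfl | rfl <;> rcases hz with rfl | rfl
        · exact G.irrefl
        · exact hua
        · exact fun h => hua h.symm
        · exact G.irrefl
    · push Not at hall
      -- `B' > 0`
      have hA1 : 1 ≤ ∑ S ∈ N.powerset, F W ({u} ∪ S) := by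
        calc (1 : ℝ) = F W ({u} ∪ ∅) := by rw [Finset.union_empty, fd.F_single]
          _ ≤ _ := Finset.single_le_sum (f := fun S => F W ({u} ∪ S))
            (fun S hS => fd.F_nonneg _ _ (hT.union (hN S (Finset.mem_powerset.mp hS))).sub)
            (Finset.empty_mem_powerset _)
      have hBpos : 0 < 1 + ∑ S ∈ N.powerset, D W S := by
        by_cases hpair : ∃ a ∈ N, ∃ c ∈ N, a ≠ c ∧ ¬ G.Adj a c
        · obtain ⟨a, ha, c, hc, hac, hadj⟩ := hpair
          have hu : u ∈ W := hT.sub (Finset.mem_singleton_self u)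
          have huU : u ∉ U := hT.U u (Finset.mem_singleton_self u)
          have hst : ∀ a ∈ N, ∀ c ∈ N, St G C K U W {a, c} := by
            intro a ha c hc
            refine hN _ ?_
            intro x hx
            rw [Finset.mem_insert, Finset.mem_singleton] at hx
            rcases hx with rfl | rfl
            · exact ha
            · exact hc
          have hlt : ((U.card : ℝ) + 1) * F W {a, c} < 1 := by
            by_cases haC : a ∈ C
            · exact F_pair_lt fd cf hW haC hac hadj (hst a ha c hc) hu huU (hall a ha).symm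
                (hall c hc).symm (pp2 a ((hst a ha c hc).sub (by simp)) haC)
            · have haK : a ∈ K := ((hst a ha c hc).CK a (by simp)).resolve_left haC
              have hcC : c ∈ C := by
                rcases (hst a ha c hc).CK c (by simp) with h | h
                · exact h
                · exact absurd (cf.clq a haK c h hac) hadj
              have := F_pair_lt fd cf hW hcC hac.symm (fun h => hadj h.symm) (hst c hc a ha) hu
                huU (hall c hc).symm (hall a ha).symm
                (pp2 c ((hst c hc a ha).sub (by simp)) hcC)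
              rwa [Finset.pair_comm] at this
          have := sum_D_lower_strict fd pp hN ha hc hac hadj hlt
          linarith
        · push Not at hpair
          have hz : wt G ((U.card : ℝ) + 1) N = 0 := by
            unfold wt
            rw [Finset.filter_eq_empty_iff.mpr, Finset.sum_empty]
            intro S hS
            rw [Finset.mem_powerset] at hS
            rintro ⟨h5, h6⟩
            obtain ⟨a, ha, c, hc, hac⟩ := Finset.one_lt_card.mp (by omega : 1 < S.card)
            exact h6 a ha c hc (hpair a (hS ha) c (hS hc) hac)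
          have := sum_D_lower fd pp hN
          rw [hz] at this
          linarith
      have h7 : (∑ S ∈ N.powerset, D W ({u} ∪ S)) *
          ((U.card : ℝ) + ∑ S ∈ N.powerset, F W S) ≤ 0 :=
        mul_nonpos_of_nonpos_of_nonneg hA' hB.le
      have h8 : 0 < (∑ S ∈ N.powerset, F W ({u} ∪ S)) * (1 + ∑ S ∈ N.powerset, D W S) :=
        mul_pos (by linarith) hBpos
      linarith

/-- The neighbours of an admissible vertex have small weight. -/
theorem wt_nb (cf : Cfg G C K U) {W : Finset V} (hW : ∀ v, v ∉ W → v ∈ C) {w u : V}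
    (hw : w ∈ C) (hu : u ∉ W) (hwu : G.Adj w u) :
    wt G ((U.card : ℝ) + 1) (nb G W w \ U) ≤ 1 := by
  have huU : u ∉ U := fun h => cf.CK u (hW u hu) (cf.UK h)
  refine le_trans (wt_mono (by positivity) ?_) (cf.cond w hw u hwu huU)
  intro a ha
  rw [Finset.mem_sdiff] at ha
  unfold nb at ha ⊢
  rw [Finset.mem_filter] at ha
  rw [Finset.mem_erase, Finset.mem_sdiff, Finset.mem_filter]
  exact ⟨fun h => hu (h ▸ ha.1.1), ⟨Finset.mem_univ _, ha.1.2⟩, ha.2⟩

/-- An independent admissible set with two elements meets `C`. -/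
theorem exists_C (cf : Cfg G C K U) {W T : Finset V} (hT : St G C K U W T)
    (h2 : 2 ≤ T.card) (hi : Ind G T) : ∃ v ∈ T, v ∈ C := by
  by_contra hcon
  push Not at hcon
  obtain ⟨a, ha, c, hc, hac⟩ := Finset.one_lt_card.mp (by omega : 1 < T.card)
  have haK := (hT.CK a ha).resolve_left (hcon a ha)
  have hcK := (hT.CK c hc).resolve_left (hcon c hc)
  exact hi a ha c hc (cf.clq a haK c hcK hac)

theorem main (fd : FDS G F D) (cf : Cfg G C K U) : ∀ n : ℕ, ∀ W : Finset V, W.card = n →
    (∀ v, v ∉ W → v ∈ C) → PP G C K U F D W := by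
  intro n
  induction n using Nat.strong_induction_on with
  | _ n ih =>
    intro W hcard hW
    have hWe : ∀ w ∈ W, w ∈ C → ∀ v, v ∉ W.erase w → v ∈ C := by
      intro w _ hwC v hv
      rw [Finset.mem_erase] at hv
      push Not at hv
      by_cases h : v = w
      · rw [h]; exact hwC
      · exact hW v (hv h)
    have ih1 : ∀ w ∈ W, w ∈ C → PP G C K U F D (W.erase w) := by
      intro w hw hwC
      refine ih _ ?_ _ rfl (hWe w hw hwC)
      rw [← hcard]
      exact Finset.card_erase_lt_of_mem hw
    have ih2 : ∀ w ∈ W, w ∈ C → ∀ a ∈ W.erase w, a ∈ C →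
        PP G C K U F D ((W.erase w).erase a) := by
      intro w hw hwC a ha haC
      refine ih _ ?_ _ rfl ?_
      · rw [← hcard]
        exact (Finset.card_erase_lt_of_mem ha).trans (Finset.card_erase_lt_of_mem hw)
      · intro v hv
        rw [Finset.mem_erase] at hv
        push Not at hv
        by_cases h : v = a
        · rw [h]; exact haC
        · exact hWe w hw hwC v (hv h)
    -- the data of a removal
    have hy : (0 : ℝ) < (U.card : ℝ) + 1 := by positivity
    have hBpos : ∀ w ∈ C, 0 < (U.card : ℝ) +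
        ∑ S ∈ (nb G W w \ U).powerset, F (W.erase w) S := by
      intro w hwC
      have := B_ge fd (W := W.erase w) (N := nb G W w \ U)
        fun S hS => (St.star cf hwC hS).sub
      positivity
    have hB' : ∀ w ∈ W, w ∈ C → (∃ u, u ∉ W ∧ G.Adj w u) → 0 ≤ 1 +
        ∑ S ∈ (nb G W w \ U).powerset, D (W.erase w) S := by
      rintro w hw hwC ⟨u, hu, hwu⟩
      have h1 := sum_D_lower fd (ih1 w hw hwC) (N := nb G W w \ U)
        fun S hS => St.star cf hwC hS
      have h2 := wt_nb cf hW hwC hu hwu
      linarith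
    -- the statement `L`
    have hL : ∀ T, St G C K U W T → 2 ≤ T.card → Ind G T → D W T < 0 := by
      intro T hT h2 hi
      obtain ⟨w, hwT, hwC⟩ := exists_C cf hT h2 hi
      have hwW := hT.sub hwT
      obtain ⟨u, hu, hwu⟩ := hT.lost w hwT hwC
      have hT' : St G C K U (W.erase w) (T.erase w) :=
        (hT.mono (Finset.erase_subset _ _)).erase (Finset.notMem_erase _ _)
      have hne : (T.erase w).Nonempty := by
        rw [← Finset.card_pos, Finset.card_erase_of_mem hwT]; omega
      have hadj : ∀ a ∈ T.erase w, ¬ G.Adj w a := fun a ha =>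
        hi w hwT a (Finset.mem_of_mem_erase ha)
      have hd : Disjoint (T.erase w) (nb G W w \ U) := by
        rw [Finset.disjoint_left]
        intro a ha ha'
        rw [Finset.mem_sdiff] at ha'
        unfold nb at ha'
        rw [Finset.mem_filter] at ha'
        exact hadj a ha ha'.1.2
      have sF := stepF fd cf hW hwC hwW hT' hne hadj
      have sD := stepD fd cf hW hwC hwW hT' hne hadj
      have kL := key_L fd cf (hWe w hwW hwC) (ih1 w hwW hwC) (ih2 w hwW hwC)
        (N := nb G W w \ U) (fun S hS => St.star cf hwC hS) (wt_nb cf hW hwC hu hwu)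
        hT' hne hd (fun a ha b hb => hi a (Finset.mem_of_mem_erase ha) b
          (Finset.mem_of_mem_erase hb))
      rw [Finset.insert_erase hwT] at sF sD
      rw [← sF, ← sD] at kL
      have hB := hBpos w hwC
      set B := (U.card : ℝ) + ∑ S ∈ (nb G W w \ U).powerset, F (W.erase w) S
      set B' := 1 + ∑ S ∈ (nb G W w \ U).powerset, D (W.erase w) S
      by_contra hcon
      push Not at hcon
      have : 0 ≤ D W T * B * B := by positivity
      nlinarith [kL]
    have hDn : ∀ T, St G C K U W T → D W T ≤ 0 := by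
      intro T hT
      by_cases h2 : 2 ≤ T.card
      · by_cases hi : Ind G T
        · exact (hL T hT h2 hi).le
        · unfold Ind at hi
          push Not at hi
          obtain ⟨a, ha, b, hb, hab⟩ := hi
          rw [fd.D_edge W T a b hT.sub ha hb hab]
      · have h3 : T.card = 0 ∨ T.card = 1 := by omega
        rcases h3 with h3 | h3
        · rw [Finset.card_eq_zero.mp h3, fd.D_empty]
        · obtain ⟨v, rfl⟩ := Finset.card_eq_one.mp h3
          rw [fd.D_single]
    -- the pairs
    have hpair : ∀ p q, p ∈ C → p ≠ q → ¬ G.Adj p q → St G C K U W {p, q} →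
        ((U.card : ℝ) + 1) * F W {p, q} ≤ 1 ∧
          0 ≤ ((U.card : ℝ) + 1) * D W {p, q} + F W {p, q} := by
      intro p q hpC hpq hadj hT
      have hpW : p ∈ W := hT.sub (by simp)
      have hT' : St G C K U (W.erase p) {q} :=
        (hT.mono (by simp)).erase (by simpa using hpq)
      have hadj' : ∀ a ∈ ({q} : Finset V), ¬ G.Adj p a := by
        intro a ha; rw [Finset.mem_singleton] at ha; subst ha; exact hadj
      have sF := stepF fd cf hW hpC hpW hT' (Finset.singleton_nonempty q) hadj'
      have sD := stepD fd cf hW hpC hpW hT' (Finset.singleton_nonempty q) hadj'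
      have e : insert p ({q} : Finset V) = {p, q} := rfl
      rw [e] at sF sD
      have hB := hBpos p hpC
      have hBd := hB' p hpW hpC (hT.lost p (by simp) hpC)
      rw [split_empty fun S => F (W.erase p) ({q} ∪ S), split_empty fun S => F (W.erase p) S]
        at sF
      rw [split_empty fun S => F (W.erase p) S] at sD hB
      rw [split_empty fun S => D (W.erase p) ({q} ∪ S), split_empty fun S => D (W.erase p) S]
        at sD
      rw [split_empty fun S => D (W.erase p) S] at hBd
      simp only [Finset.union_empty, fd.F_single, fd.F_empty, fd.D_single, fd.D_empty]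
        at sF sD hB hBd
      have hN : ∀ S ∈ (nb G W p \ U).powerset.erase ∅, S.Nonempty ∧ q ∉ S ∧
          St G C K U (W.erase p) (insert q S) := by
        intro S hS
        rw [Finset.mem_erase, Finset.mem_powerset] at hS
        refine ⟨Finset.nonempty_iff_ne_empty.mpr hS.1, ?_, ?_⟩
        · intro hq
          have := hS.2 hq
          rw [Finset.mem_sdiff] at this
          unfold nb at this
          rw [Finset.mem_filter] at this
          exact hadj this.1.2
        · rw [Finset.insert_eq]
          exact hT'.union (St.star cf hpC hS.2)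
      have hM : ((U.card : ℝ) + 1) *
          ∑ S ∈ (nb G W p \ U).powerset.erase ∅, F (W.erase p) ({q} ∪ S) ≤
            ∑ S ∈ (nb G W p \ U).powerset.erase ∅, F (W.erase p) S := by
        rw [Finset.mul_sum]
        refine Finset.sum_le_sum fun S hS => ?_
        obtain ⟨h1, h2, h3⟩ := hN S hS
        rw [← Finset.insert_eq]
        exact (ih1 p hpW hpC).M S q h1 h2 h3
      have hV : ∑ S ∈ (nb G W p \ U).powerset.erase ∅, D (W.erase p) S ≤
          ((U.card : ℝ) + 1) *
            ∑ S ∈ (nb G W p \ U).powerset.erase ∅, D (W.erase p) ({q} ∪ S) +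
          ∑ S ∈ (nb G W p \ U).powerset.erase ∅, F (W.erase p) ({q} ∪ S) := by
        rw [Finset.mul_sum, ← Finset.sum_add_distrib]
        refine Finset.sum_le_sum fun S hS => ?_
        obtain ⟨h1, h2, h3⟩ := hN S hS
        rw [← Finset.insert_eq]
        exact (ih1 p hpW hpC).V S q h1 h2 h3
      set y : ℝ := (U.card : ℝ) + 1 with hydef
      set P := ∑ S ∈ (nb G W p \ U).powerset.erase ∅, F (W.erase p) S
      set Q := ∑ S ∈ (nb G W p \ U).powerset.erase ∅, F (W.erase p) ({q} ∪ S)
      set P' := ∑ S ∈ (nb G W p \ U).powerset.erase ∅, D (W.erase p) S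
      set Q' := ∑ S ∈ (nb G W p \ U).powerset.erase ∅, D (W.erase p) ({q} ∪ S)
      have hBe : (U.card : ℝ) + (1 + P) = y + P := by ring
      rw [hBe] at sF sD hB
      have h1 : y * F W {p, q} ≤ 1 := by
        by_contra hcon
        push Not at hcon
        have := mul_lt_mul_of_pos_right hcon hB
        nlinarith [this, sF, hM]
      refine ⟨h1, ?_⟩
      by_contra hcon
      push Not at hcon
      have h2 := mul_neg_of_neg_of_pos hcon hB
      have h3 : (y * D W {p, q} + F W {p, q}) * (y + P) =
          (y * Q' + Q - P') + (1 + (0 + P')) * (1 - y * F W {p, q}) := by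
        have e1 : (y * D W {p, q} + F W {p, q}) * (y + P) =
            y * (D W {p, q} * (y + P) + F W {p, q} * (1 + (0 + P'))) + F W {p, q} * (y + P) -
              y * F W {p, q} * (1 + (0 + P')) := by ring
        rw [e1, sF, sD]
        ring
      rw [h3] at h2
      have h4 : 0 ≤ (1 + (0 + P')) * (1 - y * F W {p, q}) :=
        mul_nonneg hBd (by linarith)
      linarith
    have hpair' : ∀ p q, p ≠ q → ¬ G.Adj p q → St G C K U W {p, q} →
        ((U.card : ℝ) + 1) * F W {p, q} ≤ 1 ∧
          0 ≤ ((U.card : ℝ) + 1) * D W {p, q} + F W {p, q} := by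
      intro p q hpq hadj hT
      by_cases hpC : p ∈ C
      · exact hpair p q hpC hpq hadj hT
      · have hpK : p ∈ K := (hT.CK p (by simp)).resolve_left hpC
        have hqC : q ∈ C := by
          rcases hT.CK q (by simp) with h | h
          · exact h
          · exact absurd (cf.clq p hpK q h hpq) hadj
        have hT2 : St G C K U W {q, p} := by rw [Finset.pair_comm]; exact hT
        have := hpair q p hqC hpq.symm (fun h => hadj h.symm) hT2
        rwa [Finset.pair_comm] at this
    -- the statements `M` and `V` for an independent set with at least three elements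
    have hbig : ∀ T w, 2 ≤ T.card → w ∉ T → St G C K U W (insert w T) →
        Ind G (insert w T) →
        ((U.card : ℝ) + 1) * F W (insert w T) ≤ F W T ∧
          D W T ≤ ((U.card : ℝ) + 1) * D W (insert w T) + F W (insert w T) := by
      intro T w h2 hw hT hi
      have hTT := hT.mono (Finset.subset_insert w T)
      obtain ⟨v, hvT, hvC⟩ := exists_C cf hTT h2
        (fun a ha b hb => hi a (Finset.mem_insert_of_mem ha) b (Finset.mem_insert_of_mem hb))
      have hvW := hTT.sub hvT
      have hwv : w ≠ v := fun h => hw (h ▸ hvT)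
      have hne : (T.erase v).Nonempty := by
        rw [← Finset.card_pos, Finset.card_erase_of_mem hvT]; omega
      have hT1 : St G C K U (W.erase v) (T.erase v) :=
        (hTT.mono (Finset.erase_subset _ _)).erase (Finset.notMem_erase _ _)
      have hvn : v ∉ insert w (T.erase v) := by
        rw [Finset.mem_insert]
        rintro (h | h)
        · exact hwv h.symm
        · exact Finset.notMem_erase _ _ h
      have hT2 : St G C K U (W.erase v) (insert w (T.erase v)) :=
        (hT.mono (Finset.insert_subset_insert _ (Finset.erase_subset _ _))).erase hvn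
      have hadj2 : ∀ a ∈ insert w (T.erase v), ¬ G.Adj v a := by
        intro a ha
        refine hi v (Finset.mem_insert_of_mem hvT) a ?_
        exact Finset.insert_subset_insert _ (Finset.erase_subset _ _) ha
      have hadj1 : ∀ a ∈ T.erase v, ¬ G.Adj v a := fun a ha =>
        hadj2 a (Finset.mem_insert_of_mem ha)
      have sF1 := stepF fd cf hW hvC hvW hT1 hne hadj1
      have sD1 := stepD fd cf hW hvC hvW hT1 hne hadj1
      have sF2 := stepF fd cf hW hvC hvW hT2 (Finset.insert_nonempty _ _) hadj2
      have sD2 := stepD fd cf hW hvC hvW hT2 (Finset.insert_nonempty _ _) hadj2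
      rw [Finset.insert_erase hvT] at sF1 sD1
      have e : insert v (insert w (T.erase v)) = insert w T := by
        rw [Finset.insert_comm, Finset.insert_erase hvT]
      rw [e] at sF2 sD2
      have hB := hBpos v hvC
      have hBd := hB' v hvW hvC (hTT.lost v hvT hvC)
      have hN : ∀ S ∈ (nb G W v \ U).powerset, w ∉ T.erase v ∪ S ∧
          St G C K U (W.erase v) (insert w (T.erase v ∪ S)) := by
        intro S hS
        rw [Finset.mem_powerset] at hS
        constructor
        · rw [Finset.mem_union]
          rintro (h | h)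
          · exact hw (Finset.mem_of_mem_erase h)
          · have := hS h
            rw [Finset.mem_sdiff] at this
            unfold nb at this
            rw [Finset.mem_filter] at this
            exact hadj2 w (Finset.mem_insert_self _ _) this.1.2
        · rw [← Finset.insert_union]
          exact hT2.union (St.star cf hvC hS)
      have hM : ((U.card : ℝ) + 1) *
          ∑ S ∈ (nb G W v \ U).powerset, F (W.erase v) (insert w (T.erase v) ∪ S) ≤
            ∑ S ∈ (nb G W v \ U).powerset, F (W.erase v) (T.erase v ∪ S) := by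
        rw [Finset.mul_sum]
        refine Finset.sum_le_sum fun S hS => ?_
        obtain ⟨h1, h2⟩ := hN S hS
        rw [Finset.insert_union]
        exact (ih1 v hvW hvC).M _ w (hne.mono Finset.subset_union_left) h1 h2
      have hV : ∑ S ∈ (nb G W v \ U).powerset, D (W.erase v) (T.erase v ∪ S) ≤
          ((U.card : ℝ) + 1) *
            ∑ S ∈ (nb G W v \ U).powerset, D (W.erase v) (insert w (T.erase v) ∪ S) +
          ∑ S ∈ (nb G W v \ U).powerset, F (W.erase v) (insert w (T.erase v) ∪ S) := by
        rw [Finset.mul_sum, ← Finset.sum_add_distrib]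
        refine Finset.sum_le_sum fun S hS => ?_
        obtain ⟨h1, h2⟩ := hN S hS
        rw [Finset.insert_union]
        exact (ih1 v hvW hvC).V _ w (hne.mono Finset.subset_union_left) h1 h2
      rw [← sF1, ← sF2] at hM
      rw [← sD1, ← sD2, ← sF2] at hV
      set y : ℝ := (U.card : ℝ) + 1
      set B := (U.card : ℝ) + ∑ S ∈ (nb G W v \ U).powerset, F (W.erase v) S
      set B' := 1 + ∑ S ∈ (nb G W v \ U).powerset, D (W.erase v) S
      have h1 : y * F W (insert w T) ≤ F W T := by
        by_contra hcon
        push Not at hcon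
        have := mul_lt_mul_of_pos_right hcon hB
        linarith
      refine ⟨h1, ?_⟩
      by_contra hcon
      push Not at hcon
      have h3 := mul_lt_mul_of_pos_right hcon hB
      have h4 := mul_le_mul_of_nonneg_right h1 hBd
      linarith
    -- conclusion
    have hall : ∀ T w, T.Nonempty → w ∉ T → St G C K U W (insert w T) →
        ((U.card : ℝ) + 1) * F W (insert w T) ≤ F W T ∧
          D W T ≤ ((U.card : ℝ) + 1) * D W (insert w T) + F W (insert w T) := by
      intro T w hne hw hT
      have hTT := hT.mono (Finset.subset_insert w T)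
      by_cases hi : Ind G (insert w T)
      · by_cases h2 : 2 ≤ T.card
        · exact hbig T w h2 hw hT hi
        · have h3 : T.card = 1 := by
            have := Finset.card_pos.mpr hne
            omega
          obtain ⟨v, rfl⟩ := Finset.card_eq_one.mp h3
          rw [fd.F_single, fd.D_single]
          have hwv : w ≠ v := by simpa using hw
          exact hpair' w v hwv (hi w (by simp) v (by simp)) hT
      · unfold Ind at hi
        push Not at hi
        obtain ⟨a, ha, b, hb, hab⟩ := hi
        rw [fd.F_edge W _ a b hT.sub ha hb hab, fd.D_edge W _ a b hT.sub ha hb hab,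
          mul_zero, zero_add]
        exact ⟨fd.F_nonneg _ _ hTT.sub, hDn T hTT⟩
    exact ⟨fun T w h1 h2 h3 => (hall T w h1 h2 h3).1,
      fun T w h1 h2 h3 => (hall T w h1 h2 h3).2, hL⟩

end Pool.Agent.SCP
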