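import Pool.Agent.BCF.Close

set_option autoImplicit false
set_option linter.unusedSectionVars false

/-!
# Chromatic polynomials with a merged set of vertices
-/

open Polynomial

namespace Pool.Agent.SCP

open Pool.Agent.BCF

variable {V : Type} [Fintype V] [DecidableEq V]

/-- The chromatic polynomial of `(V, E)` with the vertices of `T` merged. -/
noncomputable def PT (E : Finset (Sym2 V)) (T : Finset V) : ℝ[X] :=
  ∑ A ∈ E.powerset, C ((-1 : ℝ) ^ A.card) * X ^ nc (A ∪ T.sym2)

/-- The indicator that the edges in `E` are properly coloured. -/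
noncomputable def pr (E : Finset (Sym2 V)) {k : ℕ} (σ : V → Fin k) : ℝ :=
  ∏ s ∈ E, (if (s.map σ).IsDiag then (0 : ℝ) else 1)

/-- The indicator that the vertices of `T` have the same colour. -/
noncomputable def mg (T : Finset V) {k : ℕ} (σ : V → Fin k) : ℝ :=
  if ∀ a ∈ T, ∀ b ∈ T, σ a = σ b then 1 else 0

theorem mg_eq (T : Finset V) {k : ℕ} (σ : V → Fin k) :
    ∏ s ∈ T.sym2, (if (s.map σ).IsDiag then (1 : ℝ) else 0) = mg T σ := by
  unfold mg
  by_cases h : ∀ a ∈ T, ∀ b ∈ T, σ a = σ b
  · rw [if_pos h]
    refine Finset.prod_eq_one fun s hs => ?_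
    induction s using Sym2.ind with
    | _ a b =>
      rw [Finset.mk_mem_sym2_iff] at hs
      rw [if_pos]
      simpa using h a hs.1 b hs.2
  · rw [if_neg h]
    push Not at h
    obtain ⟨a, ha, b, hb, hab⟩ := h
    refine Finset.prod_eq_zero (i := s(a, b)) ?_ ?_
    · rw [Finset.mk_mem_sym2_iff]; exact ⟨ha, hb⟩
    · rw [if_neg]
      simpa using hab

theorem PT_eval (E : Finset (Sym2 V)) (T : Finset V) (k : ℕ) :
    (PT E T).eval (k : ℝ) = ∑ σ : V → Fin k, mg T σ * pr E σ := by
  classical
  have h1 : ∀ σ : V → Fin k, mg T σ * pr E σ =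
      ∑ A ∈ E.powerset, (-1 : ℝ) ^ A.card *
        ∏ s ∈ A ∪ T.sym2, (if (s.map σ).IsDiag then (1 : ℝ) else 0) := by
    intro σ
    have e1 : ∀ s ∈ E, (if (s.map σ).IsDiag then (0 : ℝ) else 1) =
        -(if (s.map σ).IsDiag then (1 : ℝ) else 0) + 1 := by
      intro s _
      split_ifs <;> simp
    unfold pr
    rw [Finset.prod_congr rfl e1, Finset.prod_add, Finset.mul_sum]
    refine Finset.sum_congr rfl fun A _ => ?_
    rw [Finset.prod_const_one, mul_one, Finset.prod_neg]
    have h3 : ∏ s ∈ A ∪ T.sym2, (if (s.map σ).IsDiag then (1 : ℝ) else 0) =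
        (∏ s ∈ A, (if (s.map σ).IsDiag then (1 : ℝ) else 0)) * mg T σ := by
      rw [← mg_eq]
      have hidem : ∀ F : Finset (Sym2 V),
          ∏ s ∈ F, (if (s.map σ).IsDiag then (1 : ℝ) else 0) =
            if ∀ s ∈ F, (s.map σ).IsDiag then 1 else 0 := by
        intro F
        by_cases h : ∀ s ∈ F, (s.map σ).IsDiag
        · rw [if_pos h]
          exact Finset.prod_eq_one fun s hs => if_pos (h s hs)
        · rw [if_neg h]
          push Not at h
          obtain ⟨s, hs, hs'⟩ := h
          exact Finset.prod_eq_zero hs (if_neg hs')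
      rw [hidem, hidem, hidem]
      by_cases hA : ∀ s ∈ A, (s.map σ).IsDiag
      · rw [if_pos hA, one_mul]
        congr 1
        apply propext
        constructor
        · intro h s hs
          exact h s (Finset.mem_union_right _ hs)
        · intro h s hs
          rcases Finset.mem_union.mp hs with h' | h'
          · exact hA s h'
          · exact h s h'
      · rw [if_neg hA, zero_mul, if_neg]
        intro h
        exact hA fun s hs => h s (Finset.mem_union_left _ hs)
    rw [h3]
    ring
  rw [Finset.sum_congr rfl fun σ _ => h1 σ, Finset.sum_comm]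
  unfold PT
  rw [eval_finsetSum]
  refine Finset.sum_congr rfl fun A _ => ?_
  rw [← Finset.mul_sum, count_const]
  simp

theorem Zp_eval' (E : Finset (Sym2 V)) (k : ℕ) :
    (Zp E).eval (k : ℝ) = ∑ σ : V → Fin k, pr E σ := Zp_eval E k

/-- Merging at most one vertex has no effect. -/
theorem PT_sub {E : Finset (Sym2 V)} {T : Finset V} (hT : ∀ a ∈ T, ∀ b ∈ T, a = b) :
    PT E T = Zp E := by
  apply poly_ext
  intro k
  rw [PT_eval, Zp_eval']
  refine Finset.sum_congr rfl fun σ _ => ?_
  unfold mg
  rw [if_pos, one_mul]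
  intro a ha b hb
  rw [hT a ha b hb]

/-- Merging an edge gives zero. -/
theorem PT_zero {E : Finset (Sym2 V)} {T : Finset V} {a b : V} (ha : a ∈ T) (hb : b ∈ T)
    (he : s(a, b) ∈ E) : PT E T = 0 := by
  apply poly_ext
  intro k
  rw [PT_eval, eval_zero]
  refine Finset.sum_eq_zero fun σ _ => ?_
  unfold mg
  by_cases h : ∀ a ∈ T, ∀ b ∈ T, σ a = σ b
  · have : pr E σ = 0 := by
      unfold pr
      refine Finset.prod_eq_zero he ?_
      rw [if_pos]
      simpa using h a ha b hb
    rw [this, mul_zero]
  · rw [if_neg h, zero_mul]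

/-- The star with the centre `w` and the set of leaves `N`. -/
def star (w : V) (N : Finset V) : Finset (Sym2 V) := N.image fun a => s(w, a)

theorem pr_update {E : Finset (Sym2 V)} {w : V} (hw : ∀ s ∈ E, w ∉ s) {k : ℕ}
    (σ : V → Fin k) (c : Fin k) : pr E (Function.update σ w c) = pr E σ := by
  unfold pr
  refine Finset.prod_congr rfl fun s hs => ?_
  have h := hw s hs
  induction s using Sym2.ind with
  | _ a b =>
    rw [Sym2.mem_iff] at h
    push Not at h
    rw [Sym2.map_mk, Sym2.map_mk, Function.update_of_ne h.1.symm, Function.update_of_ne h.2.symm]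

theorem pr_star {E : Finset (Sym2 V)} {w : V} {N : Finset V} (hw : ∀ s ∈ E, w ∉ s)
    (hN : w ∉ N) {k : ℕ} (σ : V → Fin k) (c : Fin k) :
    pr (E ∪ star w N) (Function.update σ w c) =
      pr E σ * ∏ a ∈ N, (1 - if σ a = c then (1 : ℝ) else 0) := by
  have hd : Disjoint E (star w N) := by
    rw [Finset.disjoint_left]
    intro s hs hs'
    unfold star at hs'
    rw [Finset.mem_image] at hs'
    obtain ⟨a, _, rfl⟩ := hs'
    exact hw _ hs (by simp)
  unfold pr
  rw [Finset.prod_union hd]
  congr 1
  · exact pr_update hw σ c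
  · unfold star
    rw [Finset.prod_image]
    · refine Finset.prod_congr rfl fun a ha => ?_
      have haw : a ≠ w := fun h => hN (h ▸ ha)
      simp only [Sym2.map_mk, Sym2.mk_isDiag_iff, Function.update_self,
        Function.update_of_ne haw]
      by_cases h : σ a = c
      · rw [if_pos h.symm, if_pos h]; ring
      · rw [if_neg (fun h' => h h'.symm), if_neg h]; ring
    · intro a _ b _ hab
      rcases Sym2.eq_iff.mp hab with h | h
      · exact h.2
      · exact h.2.trans h.1

/-- Expansion of the star over the sets of leaves of the colour `c`. -/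
theorem star_expand {N : Finset V} {k : ℕ} (σ : V → Fin k) (c : Fin k) :
    ∏ a ∈ N, (1 - if σ a = c then (1 : ℝ) else 0) =
      ∑ S ∈ N.powerset, (-1 : ℝ) ^ S.card * if ∀ a ∈ S, σ a = c then 1 else 0 := by
  have e1 : ∀ a ∈ N, (1 - if σ a = c then (1 : ℝ) else 0) =
      -(if σ a = c then (1 : ℝ) else 0) + 1 := by
    intro a _; ring
  rw [Finset.prod_congr rfl e1, Finset.prod_add]
  refine Finset.sum_congr rfl fun S _ => ?_
  rw [Finset.prod_const_one, mul_one, Finset.prod_neg]
  congr 1
  by_cases h : ∀ a ∈ S, σ a = c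
  · rw [if_pos h]
    exact Finset.prod_eq_one fun a ha => if_pos (h a ha)
  · rw [if_neg h]
    push Not at h
    obtain ⟨a, ha, ha'⟩ := h
    exact Finset.prod_eq_zero ha (if_neg ha')

/-- Removal of a merged vertex. -/
theorem PT_step {E : Finset (Sym2 V)} {w : V} {N T : Finset V} (hw : ∀ s ∈ E, w ∉ s)
    (hN : w ∉ N) (hT : T.Nonempty) (hwT : w ∉ T) :
    X * PT (E ∪ star w N) (insert w T) =
      ∑ S ∈ N.powerset, C ((-1 : ℝ) ^ S.card) * PT E (T ∪ S) := by
  apply poly_ext
  intro k
  rw [eval_mul, eval_X, PT_eval, sum_update w, eval_finsetSum]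
  have h0 : ∀ S ∈ N.powerset, (C ((-1 : ℝ) ^ S.card) * PT E (T ∪ S)).eval (k : ℝ) =
      ∑ σ : V → Fin k, (-1 : ℝ) ^ S.card * (mg (T ∪ S) σ * pr E σ) := by
    intro S _
    rw [eval_mul, eval_C, PT_eval, Finset.mul_sum]
  rw [Finset.sum_congr rfl h0, Finset.sum_comm (s := N.powerset)]
  refine Finset.sum_congr rfl fun σ _ => ?_
  obtain ⟨t, ht⟩ := hT
  have h1 : ∀ c : Fin k, mg (insert w T) (Function.update σ w c) =
      if c = σ t then mg T σ else 0 := by
    intro c
    unfold mg
    have e : ∀ a ∈ T, Function.update σ w c a = σ a := by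
      intro a ha
      rw [Function.update_of_ne]
      rintro rfl
      exact hwT ha
    by_cases hc : c = σ t
    · subst hc
      rw [if_pos rfl]
      congr 1
      apply propext
      constructor
      · intro h a ha b hb
        have := h a (Finset.mem_insert_of_mem ha) b (Finset.mem_insert_of_mem hb)
        rwa [e a ha, e b hb] at this
      · intro h a ha b hb
        have key : ∀ a ∈ insert w T, Function.update σ w (σ t) a = σ t := by
          intro a ha
          rcases Finset.mem_insert.mp ha with rfl | ha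
          · rw [Function.update_self]
          · rw [e a ha]; exact h a ha t ht
        rw [key a ha, key b hb]
    · rw [if_neg hc, if_neg]
      intro h
      have := h w (Finset.mem_insert_self _ _) t (Finset.mem_insert_of_mem ht)
      rw [Function.update_self, e t ht] at this
      exact hc this
  rw [Finset.sum_eq_single (σ t)]
  · rw [h1, if_pos rfl, pr_star hw hN, star_expand]
    rw [Finset.mul_sum, Finset.mul_sum]
    refine Finset.sum_congr rfl fun S _ => ?_
    have h2 : mg (T ∪ S) σ = mg T σ * if ∀ a ∈ S, σ a = σ t then 1 else 0 := by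
      unfold mg
      by_cases hm : ∀ a ∈ T, ∀ b ∈ T, σ a = σ b
      · rw [if_pos hm, one_mul]
        congr 1
        apply propext
        constructor
        · intro h a ha
          exact h a (Finset.mem_union_right _ ha) t (Finset.mem_union_left _ ht)
        · intro h a ha b hb
          have key : ∀ a ∈ T ∪ S, σ a = σ t := by
            intro a ha
            rcases Finset.mem_union.mp ha with ha | ha
            · exact hm a ha t ht
            · exact h a ha
          rw [key a ha, key b hb]
      · rw [if_neg hm, zero_mul, if_neg]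
        intro h
        exact hm fun a ha b hb =>
          h a (Finset.mem_union_left _ ha) b (Finset.mem_union_left _ hb)
    rw [h2]
    ring
  · intro c _ hc
    rw [h1, if_neg hc, zero_mul]
  · intro h
    exact absurd (Finset.mem_univ _) h

/-- Removal of a vertex. -/
theorem Zp_stepw {E : Finset (Sym2 V)} {w : V} {N : Finset V} (hw : ∀ s ∈ E, w ∉ s)
    (hN : w ∉ N) :
    X * Zp (E ∪ star w N) =
      X * Zp E - Zp E + ∑ S ∈ N.powerset, C ((-1 : ℝ) ^ S.card) * PT E S := by
  apply poly_ext
  intro k
  rw [eval_mul, eval_X, Zp_eval', sum_update w, eval_add, eval_sub, eval_mul, eval_X,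
    eval_finsetSum]
  have h0 : ∀ S ∈ N.powerset, (C ((-1 : ℝ) ^ S.card) * PT E S).eval (k : ℝ) =
      ∑ σ : V → Fin k, (-1 : ℝ) ^ S.card * (mg S σ * pr E σ) := by
    intro S _
    rw [eval_mul, eval_C, PT_eval, Finset.mul_sum]
  rw [Finset.sum_congr rfl h0, Finset.sum_comm (s := N.powerset), Zp_eval', Finset.mul_sum,
    ← Finset.sum_sub_distrib, ← Finset.sum_add_distrib]
  refine Finset.sum_congr rfl fun σ _ => ?_
  have h1 : ∀ c : Fin k, pr (E ∪ star w N) (Function.update σ w c) =
      ∑ S ∈ N.powerset, pr E σ * ((-1 : ℝ) ^ S.card * if ∀ a ∈ S, σ a = c then 1 else 0) := by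
    intro c
    rw [pr_star hw hN, star_expand, Finset.mul_sum]
  rw [Finset.sum_congr rfl fun c _ => h1 c, Finset.sum_comm]
  have h2 : ∀ S ∈ N.powerset,
      ∑ c : Fin k, pr E σ * ((-1 : ℝ) ^ S.card * if ∀ a ∈ S, σ a = c then 1 else 0) =
        (-1 : ℝ) ^ S.card * (mg S σ * pr E σ) +
          (if S = ∅ then ((k : ℝ) - 1) * pr E σ else 0) := by
    intro S _
    by_cases hS : S = ∅
    · subst hS
      simp [mg]
      ring
    · rw [if_neg hS, add_zero]
      obtain ⟨t, ht⟩ := Finset.nonempty_iff_ne_empty.mpr hS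
      rw [Finset.sum_eq_single (σ t)]
      · have : (if ∀ a ∈ S, σ a = σ t then (1 : ℝ) else 0) = mg S σ := by
          unfold mg
          congr 1
          apply propext
          constructor
          · intro h a ha b hb
            rw [h a ha, h b hb]
          · intro h a ha
            exact h a ha t ht
        rw [this]
        ring
      · intro c _ hc
        rw [if_neg, mul_zero, mul_zero]
        intro h
        exact hc (h t ht).symm
      · intro h
        exact absurd (Finset.mem_univ _) h
  rw [Finset.sum_congr rfl h2, Finset.sum_add_distrib, Finset.sum_ite_eq']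
  rw [if_pos (Finset.empty_mem_powerset _)]
  ring

end Pool.Agent.SCP
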