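import Pool.Agent.SCP.Pol

set_option autoImplicit false
set_option linter.unusedSectionVars false

/-!
# The quotients `f_T` and their derivatives
-/

open Polynomial

namespace Pool.Agent.SCP

open Pool.Agent.BCF

variable {V : Type} [Fintype V] [DecidableEq V]

/-- The sign which makes the values at `-1` positive. -/
noncomputable def sg (T : Finset V) : ℝ :=
  if T = ∅ then (-1) ^ Fintype.card V else (-1) ^ (Fintype.card V + T.card + 1)

/-- The value at `1`. -/
noncomputable def aa (E : Finset (Sym2 V)) (T : Finset V) : ℝ := sg T * (PT E T).eval (-1)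

/-- The derivative at `1`. -/
noncomputable def bb (E : Finset (Sym2 V)) (T : Finset V) : ℝ :=
  -(sg T * (derivative (PT E T)).eval (-1))

theorem sg_empty : sg (∅ : Finset V) = (-1) ^ Fintype.card V := if_pos rfl

theorem sg_union {T S : Finset V} (hT : T.Nonempty) (hd : Disjoint T S) :
    sg (T ∪ S) = sg T * (-1) ^ S.card := by
  have h1 : T ∪ S ≠ ∅ := by
    intro h
    rw [Finset.union_eq_empty] at h
    exact hT.ne_empty h.1
  unfold sg
  rw [if_neg h1, if_neg hT.ne_empty, Finset.card_union_of_disjoint hd]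
  ring

theorem sg_insert {T : Finset V} {w : V} (hT : T.Nonempty) (hw : w ∉ T) :
    sg (insert w T) = -sg T := by
  have h1 : insert w T ≠ ∅ := Finset.insert_ne_empty _ _
  unfold sg
  rw [if_neg h1, if_neg hT.ne_empty, Finset.card_insert_of_notMem hw]
  ring

theorem aa_empty_pos {E : Finset (Sym2 V)} (hE : ∀ s ∈ E, ¬ s.IsDiag) : 0 < aa E ∅ := by
  unfold aa
  rw [sg_empty, PT_sub (by simp)]
  exact Zp_pos hE

theorem aa_step {E : Finset (Sym2 V)} {w : V} {N T : Finset V} (hw : ∀ s ∈ E, w ∉ s)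
    (hN : w ∉ N) (hT : T.Nonempty) (hwT : w ∉ T) (hd : Disjoint T N) :
    aa (E ∪ star w N) (insert w T) = ∑ S ∈ N.powerset, aa E (T ∪ S) := by
  have h := congrArg (eval (-1)) (PT_step hw hN hT hwT)
  rw [eval_mul, eval_X, eval_finsetSum] at h
  unfold aa
  rw [sg_insert hT hwT]
  have h2 : ∀ S ∈ N.powerset, sg (T ∪ S) * (PT E (T ∪ S)).eval (-1) =
      sg T * (C ((-1 : ℝ) ^ S.card) * PT E (T ∪ S)).eval (-1) := by
    intro S hS
    rw [sg_union hT (Finset.disjoint_of_subset_right (Finset.mem_powerset.mp hS) hd),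
      eval_mul, eval_C, mul_assoc]
  rw [Finset.sum_congr rfl h2, ← Finset.mul_sum, ← h]
  ring

theorem bb_step {E : Finset (Sym2 V)} {w : V} {N T : Finset V} (hw : ∀ s ∈ E, w ∉ s)
    (hN : w ∉ N) (hT : T.Nonempty) (hwT : w ∉ T) (hd : Disjoint T N) :
    bb (E ∪ star w N) (insert w T) + aa (E ∪ star w N) (insert w T) =
      ∑ S ∈ N.powerset, bb E (T ∪ S) := by
  have h := congrArg (fun P => (derivative P).eval (-1)) (PT_step hw hN hT hwT)
  simp only [derivative_mul, derivative_X, one_mul, eval_add, eval_mul, eval_X, derivative_sum,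
    derivative_C, zero_mul, zero_add, eval_finsetSum, eval_C] at h
  unfold aa bb
  rw [sg_insert hT hwT]
  have h2 : ∀ S ∈ N.powerset, -(sg (T ∪ S) * (derivative (PT E (T ∪ S))).eval (-1)) =
      -sg T * ((-1 : ℝ) ^ S.card * (derivative (PT E (T ∪ S))).eval (-1)) := by
    intro S hS
    rw [sg_union hT (Finset.disjoint_of_subset_right (Finset.mem_powerset.mp hS) hd)]
    ring
  rw [Finset.sum_congr rfl h2, ← Finset.mul_sum, ← h]
  ring

theorem sum_sg (N : Finset V) (q : Finset V → ℝ) :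
    ∑ S ∈ N.powerset, (-1 : ℝ) ^ Fintype.card V * ((-1 : ℝ) ^ S.card * q S) =
      2 * ((-1 : ℝ) ^ Fintype.card V * q ∅) - ∑ S ∈ N.powerset, sg S * q S := by
  have h : ∀ S ∈ N.powerset, (-1 : ℝ) ^ Fintype.card V * ((-1 : ℝ) ^ S.card * q S) =
      (if S = ∅ then 2 * ((-1 : ℝ) ^ Fintype.card V * q ∅) else 0) - sg S * q S := by
    intro S _
    unfold sg
    by_cases hS : S = ∅
    · subst hS
      simp only [if_true, Finset.card_empty]
      ring
    · simp only [hS, if_false]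
      ring
  rw [Finset.sum_congr rfl h, Finset.sum_sub_distrib, Finset.sum_ite_eq',
    if_pos (Finset.empty_mem_powerset _)]

theorem aa_step0 {E : Finset (Sym2 V)} {w : V} {N : Finset V} (hw : ∀ s ∈ E, w ∉ s)
    (hN : w ∉ N) :
    aa (E ∪ star w N) ∅ = ∑ S ∈ N.powerset, aa E S := by
  have h := congrArg (fun P => (-1 : ℝ) ^ Fintype.card V * eval (-1) P) (Zp_stepw hw hN)
  simp only [eval_mul, eval_X, eval_add, eval_sub, eval_finsetSum, eval_C] at h
  rw [mul_add, Finset.mul_sum, sum_sg N fun S => (PT E S).eval (-1)] at h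
  have e1 : PT E ∅ = Zp E := PT_sub (by simp)
  have e2 : PT (E ∪ star w N) ∅ = Zp (E ∪ star w N) := PT_sub (by simp)
  unfold aa
  rw [e2, sg_empty]
  rw [e1] at h
  linarith

theorem bb_step0 {E : Finset (Sym2 V)} {w : V} {N : Finset V} (hw : ∀ s ∈ E, w ∉ s)
    (hN : w ∉ N) :
    bb (E ∪ star w N) ∅ + aa (E ∪ star w N) ∅ = aa E ∅ + ∑ S ∈ N.powerset, bb E S := by
  have h := congrArg (fun P => (-1 : ℝ) ^ Fintype.card V * eval (-1) (derivative P))
    (Zp_stepw hw hN)
  simp only [derivative_mul, derivative_X, one_mul, eval_add, eval_mul, eval_X, derivative_sum,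
    derivative_add, derivative_sub, eval_sub,
    derivative_C, zero_mul, zero_add, eval_finsetSum, eval_C] at h
  rw [mul_add _ _ (∑ S ∈ N.powerset, _), Finset.mul_sum,
    sum_sg N fun S => (derivative (PT E S)).eval (-1)] at h
  have e1 : PT E ∅ = Zp E := PT_sub (by simp)
  have e2 : PT (E ∪ star w N) ∅ = Zp (E ∪ star w N) := PT_sub (by simp)
  unfold aa bb
  rw [e2, e1, sg_empty, Finset.sum_neg_distrib]
  rw [e1] at h
  linarith

/-- The quotient `f_T` at `1`. -/
noncomputable def FF (E : Finset (Sym2 V)) (T : Finset V) : ℝ := aa E T / aa E ∅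

/-- The derivative of the quotient `f_T` at `1`. -/
noncomputable def DD (E : Finset (Sym2 V)) (T : Finset V) : ℝ :=
  bb E T / aa E ∅ - aa E T * bb E ∅ / aa E ∅ ^ 2

theorem FF_empty {E : Finset (Sym2 V)} (hE : ∀ s ∈ E, ¬ s.IsDiag) : FF E ∅ = 1 :=
  div_self (aa_empty_pos hE).ne'

theorem DD_empty {E : Finset (Sym2 V)} (hE : ∀ s ∈ E, ¬ s.IsDiag) : DD E ∅ = 0 := by
  have := (aa_empty_pos hE).ne'
  unfold DD
  field_simp
  ring

theorem aa_single (E : Finset (Sym2 V)) (v : V) : aa E {v} = aa E ∅ := by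
  unfold aa
  rw [PT_sub (T := {v}), PT_sub (T := ∅)]
  · congr 1
    unfold sg
    simp only [Finset.singleton_ne_empty, if_false, if_true, Finset.card_singleton]
    ring
  · simp
  · simp

theorem bb_single (E : Finset (Sym2 V)) (v : V) : bb E {v} = bb E ∅ := by
  unfold bb
  rw [PT_sub (T := {v}), PT_sub (T := ∅)]
  · congr 2
    unfold sg
    simp only [Finset.singleton_ne_empty, if_false, if_true, Finset.card_singleton]
    ring
  · simp
  · simp

theorem FF_single {E : Finset (Sym2 V)} (hE : ∀ s ∈ E, ¬ s.IsDiag) (v : V) : FF E {v} = 1 := by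
  have := FF_empty hE
  unfold FF at this ⊢
  rw [aa_single, this]

theorem DD_single {E : Finset (Sym2 V)} (hE : ∀ s ∈ E, ¬ s.IsDiag) (v : V) : DD E {v} = 0 := by
  have := DD_empty hE
  unfold DD at this ⊢
  rw [aa_single, bb_single, this]

theorem FF_edge {E : Finset (Sym2 V)} {T : Finset V} {a b : V} (ha : a ∈ T) (hb : b ∈ T)
    (he : s(a, b) ∈ E) : FF E T = 0 := by
  unfold FF aa
  rw [PT_zero ha hb he]
  simp

theorem DD_edge {E : Finset (Sym2 V)} {T : Finset V} {a b : V} (ha : a ∈ T) (hb : b ∈ T)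
    (he : s(a, b) ∈ E) : DD E T = 0 := by
  unfold DD bb aa
  rw [PT_zero ha hb he]
  simp

theorem sum_FF (E : Finset (Sym2 V)) (N : Finset V) (g : Finset V → Finset V) :
    ∑ S ∈ N.powerset, FF E (g S) = (∑ S ∈ N.powerset, aa E (g S)) / aa E ∅ := by
  unfold FF
  rw [Finset.sum_div]

theorem sum_DD (E : Finset (Sym2 V)) (N : Finset V) (g : Finset V → Finset V) :
    ∑ S ∈ N.powerset, DD E (g S) = (∑ S ∈ N.powerset, bb E (g S)) / aa E ∅ -
      (∑ S ∈ N.powerset, aa E (g S)) * bb E ∅ / aa E ∅ ^ 2 := by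
  unfold DD
  rw [Finset.sum_sub_distrib, Finset.sum_div, Finset.sum_mul, Finset.sum_div]

theorem FF_step {E : Finset (Sym2 V)} {w : V} {N T : Finset V} (hE : ∀ s ∈ E, ¬ s.IsDiag)
    (hE2 : ∀ s ∈ E ∪ star w N, ¬ s.IsDiag) (hw : ∀ s ∈ E, w ∉ s)
    (hN : w ∉ N) (hT : T.Nonempty) (hwT : w ∉ T) (hd : Disjoint T N) :
    FF (E ∪ star w N) (insert w T) * (∑ S ∈ N.powerset, FF E S) =
      ∑ S ∈ N.powerset, FF E (T ∪ S) := by
  have h1 := (aa_empty_pos hE).ne'
  have h2 := (aa_empty_pos hE2).ne'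
  rw [sum_FF E N fun S => S, sum_FF, ← aa_step hw hN hT hwT hd, ← aa_step0 hw hN]
  unfold FF
  field_simp

theorem DD_step {E : Finset (Sym2 V)} {w : V} {N T : Finset V} (hE : ∀ s ∈ E, ¬ s.IsDiag)
    (hE2 : ∀ s ∈ E ∪ star w N, ¬ s.IsDiag) (hw : ∀ s ∈ E, w ∉ s)
    (hN : w ∉ N) (hT : T.Nonempty) (hwT : w ∉ T) (hd : Disjoint T N) :
    DD (E ∪ star w N) (insert w T) * (∑ S ∈ N.powerset, FF E S) +
      FF (E ∪ star w N) (insert w T) * (1 + ∑ S ∈ N.powerset, DD E S) =
      ∑ S ∈ N.powerset, DD E (T ∪ S) := by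
  have h1 := (aa_empty_pos hE).ne'
  have h2 := (aa_empty_pos hE2).ne'
  have h3 : ∑ S ∈ N.powerset, bb E S =
      bb (E ∪ star w N) ∅ + aa (E ∪ star w N) ∅ - aa E ∅ := by
    rw [bb_step0 hw hN]; ring
  rw [sum_FF E N fun S => S, sum_DD E N fun S => S, sum_DD, ← aa_step hw hN hT hwT hd,
    ← aa_step0 hw hN, ← bb_step hw hN hT hwT hd, h3]
  unfold FF DD
  field_simp
  ring

/-- The final criterion. -/
theorem final_step {E : Finset (Sym2 V)} {w u : V} {N : Finset V} (hE : ∀ s ∈ E, ¬ s.IsDiag)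
    (hw : ∀ s ∈ E, w ∉ s) (hN : w ∉ N) (hu : u ∉ N) (hwu : w ≠ u)
    (h : (∑ S ∈ N.powerset, DD E ({u} ∪ S)) * (∑ S ∈ N.powerset, FF E S) <
      (∑ S ∈ N.powerset, FF E ({u} ∪ S)) * (1 + ∑ S ∈ N.powerset, DD E S)) :
    (bb (E ∪ star w (insert u N)) ∅ - bb (E ∪ star w N) ∅) * aa (E ∪ star w N) ∅ <
      (aa (E ∪ star w (insert u N)) ∅ - aa (E ∪ star w N) ∅) * bb (E ∪ star w N) ∅ := by
  have h1 := aa_empty_pos hE
  have hN2 : w ∉ insert u N := by
    rw [Finset.mem_insert]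
    push Not
    exact ⟨hwu, hN⟩
  have a1 := aa_step0 hw hN2
  have b1 := bb_step0 hw hN2
  have a0 := aa_step0 hw hN
  have b0 := bb_step0 hw hN
  rw [Finset.sum_powerset_insert hu] at a1 b1
  have e1 : ∀ q : Finset V → ℝ, ∑ S ∈ N.powerset, q (insert u S) =
      ∑ S ∈ N.powerset, q ({u} ∪ S) := fun q => Finset.sum_congr rfl fun S _ => by
    rw [Finset.insert_eq]
  rw [e1] at a1 b1
  rw [sum_FF E N fun S => S, sum_DD E N fun S => S, sum_DD, sum_FF] at h
  set P := ∑ S ∈ N.powerset, aa E ({u} ∪ S)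
  set Q := ∑ S ∈ N.powerset, bb E ({u} ∪ S)
  set R := ∑ S ∈ N.powerset, aa E S
  set Y := ∑ S ∈ N.powerset, bb E S
  set α := aa E ∅
  set β := bb E ∅
  have e2 : (aa (E ∪ star w (insert u N)) ∅ - aa (E ∪ star w N) ∅) = P := by linarith
  have e3 : (bb (E ∪ star w (insert u N)) ∅ - bb (E ∪ star w N) ∅) = Q - P := by linarith
  have e4 : bb (E ∪ star w N) ∅ = α + Y - R := by linarith
  rw [e2, e3, e4, a0]
  have h5 := mul_lt_mul_of_pos_right h (pow_pos h1 2)
  have e5 : (Q / α - P * β / α ^ 2) * (R / α) * α ^ 2 = Q * R - P * β * R / α := by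
    field_simp
  have e6 : P / α * (1 + (Y / α - R * β / α ^ 2)) * α ^ 2 = P * (α + Y) - P * β * R / α := by
    field_simp
    ring
  rw [e5, e6] at h5
  linarith [h5]

end Pool.Agent.SCP
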